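import Pool.Agent.Q145.ART.Fix1

/-!
# Project ART: LOW, the lower bound for the main term
-/

set_option autoImplicit false

namespace Pool.Agent.Q145.ART

open Finset Filter

theorem exp_le_one_sub (u : ℝ) (h0 : 0 ≤ u) (h1 : u ≤ 1 / 2) : Real.exp (-(2 * u)) ≤ 1 - u := by
  have h2 : 1 + 2 * u ≤ Real.exp (2 * u) := by
    have := Real.add_one_le_exp (2 * u)
    linarith
  have h3 : 1 ≤ (1 - u) * Real.exp (2 * u) := by nlinarith
  have h4 : 0 < Real.exp (2 * u) := Real.exp_pos _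
  rw [Real.exp_neg, inv_le_iff_one_le_mul₀ h4]
  exact h3

theorem odd_card (m : ℕ) (hm : 1 ≤ m) : (((m.primeFactors.erase 2).card : ℕ) : ℝ) ≤ Real.log m := by
  have h1 : ∏ q ∈ m.primeFactors.erase 2, q ≤ m := by
    refine Nat.le_of_dvd hm ?_
    refine dvd_trans ?_ (Nat.prod_primeFactors_dvd m)
    exact Finset.prod_dvd_prod_of_subset _ _ _ (Finset.erase_subset _ _)
  have h2 : (Real.exp 1) ^ (m.primeFactors.erase 2).card ≤ ((∏ q ∈ m.primeFactors.erase 2, q : ℕ) : ℝ) := by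
    push_cast
    rw [← Finset.prod_const]
    refine Finset.prod_le_prod (fun i _ => (Real.exp_pos _).le) fun q hq => ?_
    have hq1 := Finset.mem_erase.1 hq
    have hq2 := (Nat.prime_of_mem_primeFactors hq1.2).two_le
    have hq3 : 3 ≤ q := by
      rcases Nat.lt_or_ge q 3 with h | h
      · exact absurd (by omega) hq1.1
      · exact h
    have h5 := Real.exp_one_lt_d9
    have h6 : (3 : ℝ) ≤ q := by exact_mod_cast hq3
    linarith
  have h3 : (Real.exp 1) ^ (m.primeFactors.erase 2).card ≤ (m : ℝ) := h2.trans (by exact_mod_cast h1)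
  have h4 := Real.log_le_log (by positivity) h3
  rw [Real.log_pow, Real.log_exp] at h4
  linarith

theorem tot_low (m : ℕ) (L : ℝ) (hm : 1 ≤ m) (hL : 2 ≤ L) (hmL : Real.log m ≤ L)
    (h : ∀ q : ℕ, q.Prime → 3 ≤ q → (q : ℝ) ≤ L ^ 2 → ¬ q ∣ m) :
    (1 / 2) * (1 - 1 / L) ≤ (Nat.totient m : ℝ) / (m : ℝ) := by
  have hm0 : (0 : ℝ) < m := by exact_mod_cast hm
  have hL0 : 0 < L := by linarith
  have h1 : (Nat.totient m : ℝ) = m * ∏ q ∈ m.primeFactors, (1 - (q : ℝ)⁻¹) := by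
    have h0 := congrArg (fun r : ℚ => (r : ℝ)) (Nat.totient_eq_mul_prod_factors m)
    push_cast at h0
    exact h0
  have h2 : (Nat.totient m : ℝ) / m = ∏ q ∈ m.primeFactors, (1 - (q : ℝ)⁻¹) := by
    rw [h1]; field_simp
  rw [h2]
  have hfac : ∀ q ∈ m.primeFactors, (0 : ℝ) < 1 - (q : ℝ)⁻¹ := by
    intro q hq
    have hq2 : (2 : ℝ) ≤ q := by exact_mod_cast (Nat.prime_of_mem_primeFactors hq).two_le
    have : (q : ℝ)⁻¹ ≤ 2⁻¹ := by gcongr
    linarith
  have hodd : 1 - 1 / L ≤ ∏ q ∈ m.primeFactors.erase 2, (1 - (q : ℝ)⁻¹) := by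
    have hu0 : 0 ≤ 1 / L ^ 2 := by positivity
    have hu1 : 1 / L ^ 2 ≤ 1 := by
      rw [div_le_one (by positivity)]; nlinarith
    have h3 : (1 - 1 / L ^ 2) ^ (m.primeFactors.erase 2).card ≤ ∏ q ∈ m.primeFactors.erase 2, (1 - (q : ℝ)⁻¹) := by
      rw [← Finset.prod_const]
      refine Finset.prod_le_prod (fun i _ => by linarith) fun q hq => ?_
      have hq1 := Finset.mem_erase.1 hq
      have hqp := Nat.prime_of_mem_primeFactors hq1.2
      have hq3 : 3 ≤ q := by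
        have := hqp.two_le
        rcases Nat.lt_or_ge q 3 with h | h
        · exact absurd (by omega) hq1.1
        · exact h
      have h4 : L ^ 2 < q := by
        by_contra hc
        push Not at hc
        exact h q hqp hq3 hc (Nat.dvd_of_mem_primeFactors hq1.2)
      have h5 : (q : ℝ)⁻¹ ≤ (L ^ 2)⁻¹ := by gcongr
      rw [one_div]
      linarith
    have h6 : 1 + ((m.primeFactors.erase 2).card : ℝ) * (-(1 / L ^ 2)) ≤ (1 + (-(1 / L ^ 2))) ^ (m.primeFactors.erase 2).card :=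
      one_add_mul_le_pow (by linarith) _
    have h7 : (((m.primeFactors.erase 2).card : ℕ) : ℝ) ≤ L := (odd_card m hm).trans hmL
    have h8 : ((m.primeFactors.erase 2).card : ℝ) * (1 / L ^ 2) ≤ 1 / L := by
      calc ((m.primeFactors.erase 2).card : ℝ) * (1 / L ^ 2) ≤ L * (1 / L ^ 2) := by gcongr
        _ = 1 / L := by field_simp
    have h9 : (1 + (-(1 / L ^ 2))) ^ (m.primeFactors.erase 2).card = (1 - 1 / L ^ 2) ^ (m.primeFactors.erase 2).card := by
      ring_nf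
    rw [h9] at h6
    linarith
  have hodd0 : 0 ≤ 1 - 1 / L := by
    have : 1 / L ≤ 1 := by rw [div_le_one hL0]; linarith
    linarith
  by_cases h2m : 2 ∈ m.primeFactors
  · rw [← Finset.mul_prod_erase _ _ h2m]
    have : (1 - ((2 : ℕ) : ℝ)⁻¹) = 1 / 2 := by norm_num
    rw [this]
    gcongr
  · rw [← Finset.erase_eq_of_notMem h2m]
    linarith

theorem t_LOW : S_LOW := by
  rintro ⟨C, hC⟩
  have e1 : ∀ᶠ x : ℕ in atTop, Real.exp 17 ≤ Real.log x :=
    (Real.tendsto_log_atTop.comp tendsto_natCast_atTop_atTop).eventually_ge_atTop _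
  have e2 : ∀ᶠ x : ℕ in atTop, Real.log x ≤ Real.sqrt x := by
    have h := (isLittleO_log_rpow_atTop (r := 1 / 2) (by norm_num)).bound (c := 1) one_pos
    have h2 := (tendsto_natCast_atTop_atTop (R := ℝ)).eventually h
    filter_upwards [h2, eventually_ge_atTop 1] with x hx hx1
    have h3 : 0 ≤ Real.log (x : ℝ) := Real.log_natCast_nonneg x
    rw [one_mul, Real.norm_of_nonneg h3, Real.norm_of_nonneg (by positivity)] at hx
    rwa [Real.sqrt_eq_rpow]
  obtain ⟨N0, hN0⟩ := (e1.and e2).exists_forall_of_atTop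
  refine ⟨max C (max N0 3), ?_⟩
  intro x K hx hK
  have hxC : C ≤ x := (le_max_left _ _).trans hx
  have hxN : N0 ≤ x := by
    have : (N0 : ℝ) ≤ x := ((le_max_left _ _).trans (le_max_right _ _)).trans hx
    exact_mod_cast this
  have hx3 : (3 : ℝ) ≤ x := ((le_max_right _ _).trans (le_max_right _ _)).trans hx
  obtain ⟨hL17, hLs⟩ := hN0 x hxN
  have hSV := hC x hxC
  set L : ℝ := Real.log x with hLdef
  have hx0 : (0 : ℝ) < x := by linarith
  have he17 : (18 : ℝ) ≤ Real.exp 17 := by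
    have := Real.add_one_le_exp (17 : ℝ)
    linarith
  have hL18 : 18 ≤ L := he17.trans hL17
  have hL0 : 0 < L := by linarith
  have hsx : 0 < Real.sqrt x := Real.sqrt_pos.2 hx0
  classical
  set c : ℝ := (1 / 2 : ℝ) ^ K * Real.exp (-8) with hc
  have hc0 : 0 ≤ c := by positivity
  -- the lower bound for a single prime
  have key : ∀ p ∈ PP x, (Real.sqrt x < (p : ℝ) ∧ ∀ q : ℕ, q.Prime → 3 ≤ q → (q : ℝ) ≤ L ^ 2 → ¬ q ∣ p - 1) →
      c ≤ ((Nat.totient (p - 1) : ℝ) / (p : ℝ)) ^ K := by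
    intro p hp hpp
    have hp1 := Finset.mem_filter.1 hp
    have hpprime := hp1.2
    have hp2 := hpprime.two_le
    have hpx : p ≤ x := Nat.lt_succ_iff.1 (Finset.mem_range.1 hp1.1)
    have hp0 : (0 : ℝ) < p := by exact_mod_cast hpprime.pos
    have hm1 : 1 ≤ p - 1 := by omega
    have hmlog : Real.log ((p - 1 : ℕ) : ℝ) ≤ L := by
      refine Real.log_le_log (by exact_mod_cast hm1) ?_
      exact_mod_cast (by omega : p - 1 ≤ x)
    have h1 := tot_low (p - 1) L hm1 (by linarith) hmlog hpp.2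
    have hm0 : (0 : ℝ) < ((p - 1 : ℕ) : ℝ) := by exact_mod_cast hm1
    have hcast : ((p - 1 : ℕ) : ℝ) = (p : ℝ) - 1 := by
      rw [Nat.cast_sub hpprime.one_le]; simp
    have h2 : 1 - 1 / L ≤ ((p - 1 : ℕ) : ℝ) / p := by
      rw [hcast, sub_div, div_self hp0.ne']
      have : 1 / (p : ℝ) ≤ 1 / L := by
        apply one_div_le_one_div_of_le hL0
        linarith [hpp.1.le]
      linarith
    have hu : 0 ≤ 1 - 1 / L := by
      have : 1 / L ≤ 1 := by rw [div_le_one hL0]; linarith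
      linarith
    have h3 : (Nat.totient (p - 1) : ℝ) / (p : ℝ) = ((Nat.totient (p - 1) : ℝ) / ((p - 1 : ℕ) : ℝ)) * (((p - 1 : ℕ) : ℝ) / p) := by
      field_simp
    have h4 : (1 / 2) * (1 - 2 / L) ≤ (Nat.totient (p - 1) : ℝ) / (p : ℝ) := by
      rw [h3]
      calc (1 / 2) * (1 - 2 / L) ≤ ((1 / 2) * (1 - 1 / L)) * (1 - 1 / L) := by
            have : 0 ≤ (1 / L) * (1 / L) := by positivity
            have h22 : 2 / L = 2 * (1 / L) := by ring
            rw [h22]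
            nlinarith
        _ ≤ _ := by gcongr
    have h5 : Real.exp (-(2 * (2 / L))) ≤ 1 - 2 / L := by
      apply exp_le_one_sub _ (by positivity)
      rw [div_le_div_iff₀ hL0 (by norm_num)]
      linarith
    have h6 : (1 / 2 : ℝ) * Real.exp (-(2 * (2 / L))) ≤ (Nat.totient (p - 1) : ℝ) / (p : ℝ) :=
      le_trans (by gcongr) h4
    calc c ≤ ((1 / 2 : ℝ) * Real.exp (-(2 * (2 / L)))) ^ K := by
          rw [hc, mul_pow]
          gcongr
          rw [← Real.exp_nat_mul]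
          apply Real.exp_le_exp.2
          have : (K : ℝ) * (2 * (2 / L)) ≤ 2 * L * (2 * (2 / L)) := by gcongr
          have h8 : 2 * L * (2 * (2 / L)) = 8 := by field_simp; norm_num
          linarith
      _ ≤ _ := by gcongr
  have h1 : c * num (PP x) (fun p : ℕ => Real.sqrt x < (p : ℝ) ∧ ∀ q : ℕ, q.Prime → 3 ≤ q → (q : ℝ) ≤ (Real.log x) ^ 2 → ¬ q ∣ p - 1) ≤
      ∑ p ∈ PP x, ((Nat.totient (p - 1) : ℝ) / (p : ℝ)) ^ K := by
    rw [num_eq, Finset.mul_sum]
    refine Finset.sum_le_sum fun p hp => ?_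
    split_ifs with h
    · rw [mul_one]; exact key p hp h
    · rw [mul_zero]; positivity
  refine le_trans ?_ h1
  have h2 : c * ((x : ℝ) / L ^ (5 / 2 : ℝ)) ≤ c * num (PP x) (fun p : ℕ => Real.sqrt x < (p : ℝ) ∧ ∀ q : ℕ, q.Prime → 3 ≤ q → (q : ℝ) ≤ (Real.log x) ^ 2 → ¬ q ∣ p - 1) := by
    gcongr
  refine le_trans ?_ h2
  rw [hc, mul_assoc]
  gcongr
  -- x / L^3 ≤ exp(-8) * (x / L^(5/2))
  have h3 : Real.exp 8 * L ^ (5 / 2 : ℝ) ≤ L ^ 3 := by
    have h31 : Real.exp 8 ≤ L ^ (1 / 2 : ℝ) := by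
      calc Real.exp 8 ≤ (Real.exp 17) ^ (1 / 2 : ℝ) := by
            rw [← Real.exp_mul]
            apply Real.exp_le_exp.2; norm_num
        _ ≤ _ := by gcongr
    calc Real.exp 8 * L ^ (5 / 2 : ℝ) ≤ L ^ (1 / 2 : ℝ) * L ^ (5 / 2 : ℝ) := by gcongr
      _ = L ^ (3 : ℝ) := by rw [← Real.rpow_add hL0]; norm_num
      _ = L ^ 3 := by norm_cast
  have h4 : 0 < L ^ (5 / 2 : ℝ) := by positivity
  have h5 : Real.exp (-8) * ((x : ℝ) / L ^ (5 / 2 : ℝ)) = x / (Real.exp 8 * L ^ (5 / 2 : ℝ)) := by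
    rw [Real.exp_neg]; field_simp
  rw [h5]
  gcongr

end Pool.Agent.Q145.ART
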