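import Mathlib
import Pool.Agent.H730R2.AA.Expand
import Pool.Agent.H730R2.AA.LSr

/-!
# Project ART (helper145): Artin's conjecture for almost all long tuples from arbitrary sets, up to the natural barrier

`n` numbers `a_1, ..., a_n`, types `t_i ∈ {0, 1, -1}`: `a` has type `0` modulo `p` if it is a primitive root and type `±1` if `(a/p) = ±1`. The number of primes `p ≤ x` modulo which every `a_i`
has type `t_i` is `(1 + O((log x)^{-A})) M(x)`, `M(x) = ∑_{p ≤ x} 2^{-#{t_i ≠ 0}} (φ(p-1)/p)^{#{t_i = 0}}`, for ALL `x` in `[x₀, x₁]` simultaneously, for almost all `a ∈ E_1 × ... × E_n`: `E_i ⊆ [1, N]` ANY sets with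
`|E_i| ≥ N min(N, x₀)^{-κ}`, `log N ≥ C √(log x₁ log log x₁)`, `2^n ≤ x₀^{1-δ}` (the natural barrier is `2^n = x`, as `M(x) ≤ 2^{-n} x`).

Every `S_...` is a `Prop` with a complete proof in its docstring. A job = a theorem `Pool.Agent.Q145.ART.t_... : S_...` in its own file, which imports this file.
Library: `Pool/Agent/H730R2/AA/{Defs,Expand,LSr,Tau}.lean` (`NT p` = the nonprincipal characters mod `p`, `fc`, `gen`, `moment`, `ls_primes`), `Pool/Agent/Helper112/MultLS.lean` (`mult_large_sieve`).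
-/

set_option autoImplicit false

namespace Pool.Agent.Q145.ART

open Finset Filter
open Pool.Agent.H730R2.AA (NT)

/-- `a` has type `t` modulo `p` -/
def Ty (p : ℕ) (t : ℤ) (a : ℕ) : Prop := if t = 0 then orderOf (a : ZMod p) = p - 1 else jacobiSym a p = t

/-- `t` is one of the three types -/
def IsT (t : ℤ) : Prop := t = 0 ∨ t = 1 ∨ t = -1

/-- density of type `t` among the units mod `p` -/
noncomputable def rr (p : ℕ) (t : ℤ) : ℝ := if t = 0 then (Nat.totient (p - 1) : ℝ) / ((p - 1 : ℕ) : ℝ) else 1 / 2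

/-- the factor of the main term -/
noncomputable def ww (p : ℕ) (t : ℤ) : ℝ := if t = 0 then (Nat.totient (p - 1) : ℝ) / (p : ℝ) else 1 / 2

/-- `τ(p - 1)` -/
noncomputable def tt (p : ℕ) : ℝ := ((p - 1).divisors.card : ℝ)

/-- number of elements of `s` with `P` (use `classical`, `unfold num`; decidability instances are irrelevant: `Finset.filter_congr_decidable`, `convert`) -/
noncomputable def num {α : Type} (s : Finset α) (P : α → Prop) : ℝ := by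
  classical
  exact ((s.filter P).card : ℝ)

/-- number of elements of `E` of type `t` mod `p` -/
noncomputable def nT (E : Finset ℕ) (t : ℤ) (p : ℕ) : ℝ := num E (fun a => Ty p t a)

/-- number of elements of `E` of type `t` mod `p` and mod `q` -/
noncomputable def nT2 (E : Finset ℕ) (t : ℤ) (p q : ℕ) : ℝ := num E (fun a => Ty p t a ∧ Ty q t a)

/-- all primitive characters mod `r` have a sum at most `V` over `E` -/
def CB (E : Finset ℕ) (V : ℝ) (r : ℕ) : Prop := ∀ χ : DirichletCharacter ℂ r, χ.IsPrimitive → ‖∑ a ∈ E, χ (a : ZMod r)‖ ≤ V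

/-- the primes `≤ x` -/
def PP (x : ℕ) : Finset ℕ := (range (x + 1)).filter Nat.Prime

/-- number of primes `p ≤ x` modulo which every `a_i` has type `t_i` -/
noncomputable def cnt {n : ℕ} (t : Fin n → ℤ) (a : Fin n → ℕ) (x : ℕ) : ℝ := num (PP x) (fun p => ∀ i, Ty p (t i) (a i))

/-- the main term -/
noncomputable def main {n : ℕ} (t : Fin n → ℤ) (x : ℕ) : ℝ := ∑ p ∈ PP x, ∏ i, ww p (t i)

/-! ## Characters -/

/-- **EXP** (expansion in characters). Proof. `t = 0`: `gen` in `H730R2/AA/Expand.lean`: `fc_inv` gives `1[orderOf u = p - 1] = ∑ fc gen χ * χ u` for units, `fc_gen_one`: the coefficient of `χ = 1` is `rho p = rr p 0`, `fc_gen_sum`: the sum of the norms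
is `≤ τ(p - 1)`. (Case `D = 1` of `expand` there is the same with `m²` in place of `m`.) For `p ∣ a`: `orderOf (0 : ZMod p) = 0 ≠ p - 1` and `χ 0 = 0`. `t = ±1`: `1[(a/p) = t] = (1/2)(1[p ∤ a] + t (a/p))`; `β (qc p) = t/2` (`qc_apply`, `qc_ne`), all others `0`; `1/2 ≤ τ(p - 1)`. -/
def S_EXP : Prop := ∀ (p : ℕ) [Fact p.Prime], 2 < p → ∀ t : ℤ, IsT t → ∃ β : DirichletCharacter ℂ p → ℂ,
  (∀ a : ℕ, ((Ty p t a → (1 : ℂ) = (if p ∣ a then 0 else ((rr p t : ℝ) : ℂ)) + ∑ χ ∈ NT p, β χ * χ (a : ZMod p)) ∧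
    (¬ Ty p t a → (0 : ℂ) = (if p ∣ a then 0 else ((rr p t : ℝ) : ℂ)) + ∑ χ ∈ NT p, β χ * χ (a : ZMod p)))) ∧
  ∑ χ ∈ NT p, ‖β χ‖ ≤ tt p

/-- **ONE**. Proof. Sum EXP over `a ∈ E`: `nT = rr · #{a ∈ E : p ∤ a} + ∑_{χ ∈ NT p} β χ ∑_{a ∈ E} χ a`; `#{a ∈ E : p ∣ a} ≤ N/p`, `0 ≤ rr ≤ 1 ≤ tt`, `‖∑_E χ‖ ≤ V` (`NT_prim` in `H730R2/AA/LSr.lean`: nonprincipal characters mod a prime are primitive). -/
def S_ONE : Prop := S_EXP → ∀ (N p : ℕ) (E : Finset ℕ) (t : ℤ) (V : ℝ), p.Prime → 2 < p → E ⊆ Icc 1 N → IsT t → 0 ≤ V → CB E V p →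
  |nT E t p - rr p t * (E.card : ℝ)| ≤ 2 * tt p * (V + (N : ℝ) / p)

/-- **TWO**. Proof. Multiply the two expansions and sum over `a ∈ E`. (1) `rr p t · rr q t · #{a ∈ E : p ∤ a, q ∤ a}`, which differs from `rr rr |E|` by at most `N/p + N/q`. (2) `rr q t ∑_χ β χ ∑_{a ∈ E, q ∤ a} χ a`: the inner sum is `≤ V + N/q`; total `≤ τ_p (V + N/q)`.
(3) the same with `p, q` exchanged. (4) `∑_χ ∑_ψ β χ β' ψ ∑_{a ∈ E} χ(a) ψ(a)`: `χ(a) ψ(a)` is the value at `a` of the product character mod `p q` (`changeLevel`), which is primitive: its conductor divides `p q`, and it is not `1`, `p`, `q`, as `χ ≠ 1`, `ψ ≠ 1` and `p ≠ q`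
(grep the library for products of primitive characters of coprime moduli, e.g. `IsPrimitive` with `mul` or `changeLevel`; Mathlib: `DirichletCharacter.primitive_mul...`), so `≤ τ_p τ_q V`. All together `≤ 4 τ_p τ_q (V + N/p + N/q)`, as `τ ≥ 1`, `0 ≤ rr ≤ 1`. -/
def S_TWO : Prop := S_EXP → ∀ (N p q : ℕ) (E : Finset ℕ) (t : ℤ) (V : ℝ), p.Prime → 2 < p → q.Prime → 2 < q → p ≠ q → E ⊆ Icc 1 N → IsT t → 0 ≤ V →
  CB E V p → CB E V q → CB E V (p * q) →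
  |nT2 E t p q - rr p t * rr q t * (E.card : ℝ)| ≤ 4 * tt p * tt q * (V + (N : ℝ) / p + (N : ℝ) / q)

/-- **UPP** (only the quadratic character). Proof. `t = ±1`: `1[(a/p) = t] ≤ (1 + t (a/p))/2` (if `(a/p) = 0` the left side is `0`), sum over `E`: `≤ (|E| + |∑_E (a/p)|)/2`, and `(·/p)` is the character `qc p`, primitive (`qc_apply`, `qc_ne`, `NT_prim`). `t = 0`: a primitive root modulo an odd `p`
has `(a/p) = -1` (its order `p - 1` does not divide `(p-1)/2`, Euler's criterion; compare `fc_gen_quad`). -/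
def S_UPP : Prop := ∀ (p : ℕ) (E : Finset ℕ) (t : ℤ) (V : ℝ), p.Prime → 2 < p → IsT t → CB E V p → nT E t p ≤ ((E.card : ℝ) + V) / 2

/-- **BCH** (few bad conductors). Proof. Put `m = min N x`, `V = |E| m^{-κ}`, `κ = min(δ/100, 1/8)`, `C` large. Note `|E| ≥ N m^{-κ}`, `m ≤ N`, `1 ≤ log N`.
Case `N ≤ x^4`. Let `ρ = ⌈4 log x/log N⌉`: `x^4 ≤ N^ρ ≤ x^4 N`, `1 ≤ ρ ≤ 8 log x/log N`. `moment ρ N` (`H730R2/AA/Tau.lean`) gives `(∑_E χ)^ρ = ∑_{n ≤ N^ρ} A(n) χ(n)` for ALL characters and `∑ A² ≤ (N (1 + log N)^{ρ-1})^ρ`; `mult_large_sieve (N^ρ) (x^2)` (all terms nonnegative, `r/φ(r) ≥ 1`):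
`∑_{r ≤ x²} ∑_{χ prim} ‖∑_E χ‖^{2ρ} ≤ 6 (N^ρ + x^4) N^ρ (1 + log N)^{ρ²} ≤ 12 N^{2ρ} (1 + log N)^{ρ²}`. Every `r` without `CB E V r` contributes at least `V^{2ρ} ≥ (N m^{-2κ})^{2ρ} ≥ N^{2ρ} N^{-4κρ} ≥ N^{2ρ} (x^4 N)^{-4κ} ≥ N^{2ρ} x^{-32κ}`.
So the number of these `r` is `≤ 12 x^{32κ} (1 + log N)^{ρ²}`; `ρ² ≤ 64 log² x/log² N ≤ 64 log x/(C² log log x)` and `log (1 + log N) ≤ log (1 + 4 log x) ≤ 2 log log x`, so `(1 + log N)^{ρ²} ≤ x^{128/C²}`. Total `≤ 12 x^{32δ/100 + 128/C²} ≤ x^δ`.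
Case `N > x^4`: `m = x`; `mult_large_sieve N (x^2)` with the coefficients `1_E`: `#r · (|E| x^{-κ})² ≤ 6 (N + x^4) |E| ≤ 12 N |E|`, so `#r ≤ 12 x^{2κ} N/|E| ≤ 12 x^{3κ} ≤ x^δ`. -/
def S_BCH : Prop := ∀ δ : ℝ, 0 < δ → ∃ C κ : ℝ, 0 < κ ∧ κ ≤ δ ∧ ∀ (x N : ℕ) (E : Finset ℕ), C ≤ x → C * Real.sqrt (Real.log x * Real.log (Real.log x)) ≤ Real.log N →
  E ⊆ Icc 1 N → (N : ℝ) ≤ (E.card : ℝ) * ((min N x : ℕ) : ℝ) ^ κ →
  num (Icc 2 (x ^ 2)) (fun r => ¬ CB E ((E.card : ℝ) * ((min N x : ℕ) : ℝ) ^ (-κ)) r) ≤ (x : ℝ) ^ δ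

/-! ## Shifted primes -/

/-- **TAU**. Proof. `∑_{n ≤ x} τ(n)² ≤ x (1 + log x)^3` (`τ(n)² ≤ ∑_{d ∣ n} τ_3`-type bounds, or the library: grep `divisors.card`; any fixed power of `log` is enough), so `#{n ≤ x : τ(n) > (log x)^B} ≤ x (1 + log x)^3/(log x)^{2B} ≤ x/(log x)^A` for `2B ≥ A + 4`, `x` large; put `n = p - 1`. -/
def S_TAU : Prop := ∀ A : ℝ, 0 < A → ∃ B C : ℝ, 0 < B ∧ ∀ x : ℕ, C ≤ x →
  num (PP x) (fun p => (Real.log x) ^ B < tt p) ≤ (x : ℝ) / (Real.log x) ^ A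

/-- **SV** (a sieve). Proof. Number of primes `√x < p ≤ x` with no odd prime `q ≤ log² x` dividing `p - 1`: the fundamental lemma of the sieve (linear sieve dimension 1) with sifting level `z = log² x` and level of distribution `D = (log x)^B = z^{B/2}`; the moduli `d ≤ D` are covered by the
Siegel-Walfisz theorem (or Bombieri-Vinogradov): `∑_{d ≤ D} |π(x; d, 1) - π(x)/φ(d)| ≤ x (log x)^{-10}`. The count is `≥ π(x) ∏_{3 ≤ q ≤ z} (1 - 1/(q-1)) (1 - e^{-B/4}) - x (log x)^{-10} - √x ≥ c x/(log x log log x)`. Library: weighted fundamental lemma `FLw` in `Pool/Agent/Q84/MB/B4.lean`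
(adapted from `Pool/Agent/Y855/A1`, `A2`), `class_FL`, `class_main` in `Pool/Agent/Q84/MB/B5, B8`, or much more: `count_HH` (`B11`: many primes with `(p-1)/2` free of small primes); Brun's pure sieve is also enough; a lower bound for the number of primes `p` with `(p-1)/2` free of primes `≤ x^c` is `≥ c' x/log² x` and also suffices. -/
def S_SV : Prop := ∃ C : ℝ, ∀ x : ℕ, C ≤ x →
  (x : ℝ) / (Real.log x) ^ (5 / 2 : ℝ) ≤ num (PP x) (fun p : ℕ => Real.sqrt x < (p : ℝ) ∧ ∀ q : ℕ, q.Prime → 3 ≤ q → (q : ℝ) ≤ (Real.log x) ^ 2 → ¬ q ∣ p - 1)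

/-- **LOW** (lower bound for the main term). Proof. For the primes `p` of SV: `φ(p-1)/(p-1) = (1/2) ∏_{q ∣ p-1, q > 2} (1 - 1/q) ≥ (1/2)(1 - ∑ 1/q)`, there are at most `log x/log 3 ≤ log x` such `q`, each `> log² x`: `≥ (1/2)(1 - 1/log x)`; `(p-1)/p ≥ 1 - 1/√x`. So
`(φ(p-1)/p)^K ≥ 2^{-K} (1 - 1/log x)^{2 log x} (1 - 1/√x)^{2 log x} ≥ 2^{-K}/32` for `K ≤ 2 log x`, `x` large (`(1 - 1/u)^u ≥ 1/4` for `u ≥ 2`), and `(1/32)(log x)^{-5/2} ≥ (log x)^{-3}`. -/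
def S_LOW : Prop := S_SV → ∃ C : ℝ, ∀ x K : ℕ, C ≤ x → (K : ℝ) ≤ 2 * Real.log x →
  (1 / 2 : ℝ) ^ K * ((x : ℝ) / (Real.log x) ^ 3) ≤ ∑ p ∈ PP x, ((Nat.totient (p - 1) : ℝ) / (p : ℝ)) ^ K

/-! ## The theorem -/

/-- **FIX** (one `x`). Second moment; taken by helper145. -/
def S_FIX : Prop := ∀ A δ : ℝ, 0 < A → 0 < δ → δ ≤ 1 → ∃ C κ : ℝ, 0 < κ ∧ κ ≤ δ ∧ ∀ (x N n : ℕ) (E : Fin n → Finset ℕ) (t : Fin n → ℤ),
  C ≤ x → C * Real.sqrt (Real.log x * Real.log (Real.log x)) ≤ Real.log N → (n : ℝ) * Real.log 2 ≤ (1 - δ) * Real.log x → (∀ i, E i ⊆ Icc 1 N) →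
  (∀ i, (N : ℝ) ≤ ((E i).card : ℝ) * ((min N x : ℕ) : ℝ) ^ κ) → (∀ i, IsT (t i)) →
  num (Fintype.piFinset E) (fun a => main t x / (Real.log x) ^ A < |cnt t a x - main t x|) ≤ (∏ i, ((E i).card : ℝ)) / (Real.log x) ^ A

/-- **ALL** (all `x ∈ [x₀, x₁]` simultaneously). -/
def S_ALL : Prop := ∀ A δ : ℝ, 0 < A → 0 < δ → δ ≤ 1 → ∃ C κ : ℝ, 0 < κ ∧ κ ≤ δ ∧ ∀ (x₀ x₁ N n : ℕ) (E : Fin n → Finset ℕ) (t : Fin n → ℤ),
  C ≤ x₀ → C * Real.sqrt (Real.log x₁ * Real.log (Real.log x₁)) ≤ Real.log N → (n : ℝ) * Real.log 2 ≤ (1 - δ) * Real.log x₀ → (∀ i, E i ⊆ Icc 1 N) →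
  (∀ i, (N : ℝ) ≤ ((E i).card : ℝ) * ((min N x₀ : ℕ) : ℝ) ^ κ) → (∀ i, IsT (t i)) →
  num (Fintype.piFinset E) (fun a => ∃ x : ℕ, x₀ ≤ x ∧ x ≤ x₁ ∧ main t x / (Real.log x) ^ A < |cnt t a x - main t x|) ≤ (∏ i, ((E i).card : ℝ)) / (Real.log x₀) ^ A

/-- **SAN** (from one `x` to all `x`: `cnt` and `main` are monotone in `x`). Proof. Let `K = #{i : t i = 0} ≤ n ≤ 2 log x` for all `x ≥ x₀`; `main t x = 2^{-(n-K)} ∑_{p ≤ x} (φ(p-1)/p)^K ≥ 2^{-n} x/(log x)^3` by LOW, and `main t y - main t x ≤ 2^{-n} (y - x)` for `x ≤ y` (`ww ≤ 1/2` for every prime: `φ(p-1) ≤ p/2`).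
Take `A' = 2A + 20` in FIX (constants `C'`, `κ`). For `k ≥ 0` with `2^k ≤ x₁`, `2^{k+1} > x₀`, put `J = ⌈(k+1)^{A+5}⌉` and the points `z_{k,j} = ⌊2^k (1 + j/J)⌋`, `0 ≤ j ≤ J`; use FIX at all these points that are in `[x₀, x₁]`, and at `x₀` and `x₁` themselves. The hypotheses of FIX hold there (all are monotone:
`min N x ≥ min N x₀`, `log x · log log x ≤ log x₁ log log x₁`). The sum of the exceptional proportions is `≤ 2 (log x₀)^{-A'} + ∑_{2^{k+1} > x₀} (J + 1) (log 2^k)^{-A'} ≤ (log x₀)^{-A}` (`∑_{k ≥ k₀} k^{A+5+1-2A-20} ≤ C k₀^{-A-13}`). For all other `a` and `x ∈ [x₀, x₁]` let `y ≤ x ≤ z` be consecutive points of the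
set of points used (`x₀` and `x₁` included): `z - y ≤ 2^k/J + 1 ≤ 4 x (log x)^{-A-4}`-ish (`k + 1 ≥ log x`, constants: take the exponent of `J` a little bigger if you need, you may choose `J` and `A'` freely), so
`cnt x ≤ cnt z ≤ (1 + (log z)^{-A'}) main z ≤ (1 + (log x)^{-A'})(main x + 2^{-n}(z - y)) ≤ (1 + (log x)^{-A}) main x`, and similarly from below with `y`. -/
def S_SAN : Prop := S_SV → S_LOW → S_FIX → S_ALL

/-- **SHP** (sharpness). Proof. For every prime `p ≤ x` and type `t`: `#{a ≤ N : Ty p t a} ≤ (N + p)/2`: for odd `p` the elements of type `t` lie in at most `(p-1)/2` classes (`φ(p-1) ≤ (p-1)/2` generators; squares; nonsquares), each with `≤ N/p + 1` elements of `[1, N]`; for `p = 2`: only odd `a` (orders: `orderOf 0 = 0`; `jacobiSym a 2 = 0` for even `a`), `≤ (N+1)/2`.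
So the number of the `a` is `≤ ∑_{p ≤ x} ((N + p)/2)^n ≤ x N^n ((1 + 1/x)/2)^n` (`N ≥ x²`), and `((1 + 1/x)/2)^n ≤ exp (- n log 2 (1 - 2/x)) ≤ x^{-(1+δ)(1-2/x)}`. So total `≤ N^n x^{-δ + 2(1+δ)/x} ≤ N^n x^{-δ/2}` for `x` large. -/
def S_SHP : Prop := ∀ δ : ℝ, 0 < δ → ∃ C : ℝ, ∀ (x N n : ℕ) (t : Fin n → ℤ), C ≤ x → (x : ℝ) ^ 2 ≤ N → (1 + δ) * Real.log x ≤ (n : ℝ) * Real.log 2 → (∀ i, IsT (t i)) →
  num (Fintype.piFinset (fun _ : Fin n => Icc 1 N)) (fun a : Fin n → ℕ => ∃ p ∈ PP x, ∀ i, Ty p (t i) (a i)) ≤ (N : ℝ) ^ n * (x : ℝ) ^ (-(δ / 2))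

/-- **COR** (least prime). Proof. (a) Given `ε`, put `x = ⌊2^{(1+ε)n}⌋` and `δ = min(ε, 1)/4`: `n log 2 ≤ (1 - δ) log x` for `n` large (`log x ≥ (1+ε) n log 2 - 1`), use ALL with `x₀ = x₁ = x`, `A = 1`: outside a proportion `1/log x ≤ ε`, `cnt ≥ main (1 - 1/log x) > 0` (`main > 0` by LOW with `K = #{t i = 0}`, or because `ww > 0` at `p = 2, 3`).
The conditions: `log x ≤ (1+ε) n log 2`, so `C √(log x log log x) ≤ C' √(n log n)`, and `min N x ≥ min N (2^n)`. (b) SHP with `x = ⌊2^{(1-ε)n}⌋`: `x² ≤ 4^n ≤ N`, `(1 + δ) log x ≤ n log 2` with `δ = ε`. -/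
def S_COR : Prop := S_SV → S_LOW → S_ALL → S_SHP → ∀ ε : ℝ, 0 < ε → ε < 1 → ∃ C κ : ℝ, 0 < κ ∧ ∀ (n N : ℕ) (t : Fin n → ℤ), C ≤ n → (∀ i, IsT (t i)) →
  (∀ E : Fin n → Finset ℕ, C * Real.sqrt ((n : ℝ) * Real.log n) ≤ Real.log N → (∀ i, E i ⊆ Icc 1 N) → (∀ i, (N : ℝ) ≤ ((E i).card : ℝ) * ((min N (2 ^ n) : ℕ) : ℝ) ^ κ) →
    num (Fintype.piFinset E) (fun a : Fin n → ℕ => ¬ ∃ p : ℕ, p.Prime ∧ (p : ℝ) ≤ (2 : ℝ) ^ ((1 + ε) * (n : ℝ)) ∧ ∀ i, Ty p (t i) (a i)) ≤ ε * ∏ i, ((E i).card : ℝ)) ∧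
  (4 ^ n ≤ N → num (Fintype.piFinset (fun _ : Fin n => Icc 1 N)) (fun a : Fin n → ℕ => ∃ p : ℕ, p.Prime ∧ (p : ℝ) ≤ (2 : ℝ) ^ ((1 - ε) * (n : ℝ)) ∧ ∀ i, Ty p (t i) (a i)) ≤ ε * (N : ℝ) ^ n)

end Pool.Agent.Q145.ART
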