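import Pool.Agent.Q145.ART.Fix5
import Pool.Agent.Q193.ART.EXP
import Pool.Agent.Q193.ART.ONE
import Pool.Agent.Q38.ART.UPP
import Pool.Agent.Q224.ART.BCH
import Pool.Agent.Q224.ART.TAU
import Pool.Agent.Q150.ART.SAN
import Pool.Agent.Q124.ART.COR
import Pool.Agent.Q238.ART.TWO
import Pool.Agent.Q238.ART.SV
import Pool.Agent.Q145.ART.Low

/-!
# Project ART: all parts together
-/

set_option autoImplicit false

namespace Pool.Agent.Q145.ART

open Finset Filter

theorem fix' : S_FIX := t_FIX t_EXP t_ONE Pool.Agent.Q238.ART.t_TWO Pool.Agent.Q38.ART.t_UPP t_BCH t_TAU Pool.Agent.Q238.ART.t_SV t_LOW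

theorem all' : S_ALL := t_SAN Pool.Agent.Q238.ART.t_SV t_LOW fix'

end Pool.Agent.Q145.ART
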