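import Pool.Agent.Q145.ART.Stm

/-!
# Project ART, the second moment. Part 1: product formulas and the abstract second moment
-/

set_option autoImplicit false

namespace Pool.Agent.Q145.ART

open Finset Filter

lemma num_eq {α : Type} (s : Finset α) (P : α → Prop) [DecidablePred P] : num s P = ∑ a ∈ s, (if P a then (1 : ℝ) else 0) := by
  unfold num
  rw [card_filter]
  push_cast
  refine sum_congr rfl fun a _ => ?_
  by_cases h : P a
  · simp [h]
  · simp [h]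

lemma num_nonneg {α : Type} (s : Finset α) (P : α → Prop) : 0 ≤ num s P := by
  unfold num
  positivity

lemma num_le_card {α : Type} (s : Finset α) (P : α → Prop) : num s P ≤ (s.card : ℝ) := by
  classical
  unfold num
  exact_mod_cast card_filter_le _ _

lemma num_mono {α : Type} (s : Finset α) {P Q : α → Prop} (h : ∀ a ∈ s, P a → Q a) : num s P ≤ num s Q := by
  classical
  rw [num_eq, num_eq]
  refine sum_le_sum fun a ha => ?_
  by_cases h1 : P a
  · rw [if_pos h1, if_pos (h a ha h1)]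
  · rw [if_neg h1]
    split_ifs <;> norm_num

lemma num_or_le {α : Type} (s : Finset α) (P Q : α → Prop) : num s (fun a => P a ∨ Q a) ≤ num s P + num s Q := by
  classical
  rw [num_eq, num_eq, num_eq, ← sum_add_distrib]
  refine sum_le_sum fun a _ => ?_
  by_cases h1 : P a <;> by_cases h2 : Q a <;> simp [h1, h2]

/-- Markov -/
lemma markov {α : Type} (s : Finset α) (f : α → ℝ) (hf : ∀ a ∈ s, 0 ≤ f a) {c : ℝ} (hc : 0 < c) : num s (fun a => c < f a) ≤ (∑ a ∈ s, f a) / c := by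
  classical
  rw [num_eq, le_div_iff₀ hc, sum_mul]
  refine sum_le_sum fun a ha => ?_
  by_cases h : c < f a
  · rw [if_pos h, one_mul]
    exact h.le
  · rw [if_neg h, zero_mul]
    exact hf a ha

/-- indicator of the event that all `a_i` have type `t_i` modulo `p` -/
noncomputable def ff {n : ℕ} (t : Fin n → ℤ) (p : ℕ) (a : Fin n → ℕ) : ℝ := by
  classical
  exact ∏ i, (if Ty p (t i) (a i) then (1 : ℝ) else 0)

lemma ff_eq {n : ℕ} (t : Fin n → ℤ) (p : ℕ) (a : Fin n → ℕ) [Decidable (∀ i, Ty p (t i) (a i))] :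
    ff t p a = if ∀ i, Ty p (t i) (a i) then (1 : ℝ) else 0 := by
  classical
  unfold ff
  by_cases h : ∀ i, Ty p (t i) (a i)
  · rw [if_pos h]
    exact prod_eq_one fun i _ => if_pos (h i)
  · rw [if_neg h]
    push Not at h
    obtain ⟨i, hi⟩ := h
    exact prod_eq_zero (mem_univ i) (if_neg hi)

lemma ff_nonneg {n : ℕ} (t : Fin n → ℤ) (p : ℕ) (a : Fin n → ℕ) : 0 ≤ ff t p a := by
  classical
  rw [ff_eq]
  split_ifs <;> norm_num

lemma ff_le_one {n : ℕ} (t : Fin n → ℤ) (p : ℕ) (a : Fin n → ℕ) : ff t p a ≤ 1 := by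
  classical
  rw [ff_eq]
  split_ifs <;> norm_num

lemma cnt_eq {n : ℕ} (t : Fin n → ℤ) (a : Fin n → ℕ) (x : ℕ) : cnt t a x = ∑ p ∈ PP x, ff t p a := by
  classical
  unfold cnt
  rw [num_eq]
  refine sum_congr rfl fun p _ => (ff_eq t p a).symm

lemma sum_ff {n : ℕ} (t : Fin n → ℤ) (E : Fin n → Finset ℕ) (p : ℕ) : ∑ a ∈ Fintype.piFinset E, ff t p a = ∏ i, nT (E i) (t i) p := by
  classical
  unfold ff nT
  simp_rw [num_eq]
  rw [prod_univ_sum]

lemma sum_ff2 {n : ℕ} (t : Fin n → ℤ) (E : Fin n → Finset ℕ) (p q : ℕ) :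
    ∑ a ∈ Fintype.piFinset E, ff t p a * ff t q a = ∏ i, nT2 (E i) (t i) p q := by
  classical
  unfold ff nT2
  simp_rw [num_eq]
  rw [prod_univ_sum]
  refine sum_congr rfl fun a _ => ?_
  rw [← prod_mul_distrib]
  refine prod_congr rfl fun i _ => ?_
  by_cases h1 : Ty p (t i) (a i) <;> by_cases h2 : Ty q (t i) (a i) <;> simp [h1, h2]

lemma nT_nonneg (E : Finset ℕ) (t : ℤ) (p : ℕ) : 0 ≤ nT E t p := num_nonneg _ _

lemma nT2_nonneg (E : Finset ℕ) (t : ℤ) (p q : ℕ) : 0 ≤ nT2 E t p q := num_nonneg _ _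

lemma nT2_le (E : Finset ℕ) (t : ℤ) (p q : ℕ) : nT2 E t p q ≤ nT E t p := num_mono _ fun _ _ h => h.1

lemma card_pi {n : ℕ} (E : Fin n → Finset ℕ) : ((Fintype.piFinset E).card : ℝ) = ∏ i, ((E i).card : ℝ) := by
  rw [Fintype.card_piFinset]
  push_cast
  rfl

/-- the second moment -/
theorem sm {n : ℕ} (t : Fin n → ℤ) (E : Fin n → Finset ℕ) (G : Finset ℕ) (bp : Finset (ℕ × ℕ)) (R : ℕ → ℝ) (θ u W : ℝ)
    (hW : W = ∏ i, ((E i).card : ℝ)) (hθ : 0 ≤ θ) (hu : 0 ≤ u) (hR : ∀ p ∈ G, 0 ≤ R p)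
    (h1 : ∀ p ∈ G, (1 - θ) * R p * W ≤ ∏ i, nT (E i) (t i) p)
    (h2 : ∀ p ∈ G, ∀ q ∈ G, p ≠ q → (p, q) ∉ bp → ∏ i, nT2 (E i) (t i) p q ≤ (1 + θ) * (R p * R q) * W)
    (h3 : ∀ p ∈ G, ∏ i, nT (E i) (t i) p ≤ u * W) :
    ∑ a ∈ Fintype.piFinset E, (∑ p ∈ G, ff t p a - ∑ p ∈ G, R p) ^ 2 ≤ W * (3 * θ * (∑ p ∈ G, R p) ^ 2 + u * ((G.card : ℝ) + (bp.card : ℝ))) := by
  classical
  have hW0 : 0 ≤ W := by
    rw [hW]
    positivity
  set M : ℝ := ∑ p ∈ G, R p with hM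
  have hM0 : 0 ≤ M := sum_nonneg hR
  have e1 : ∑ a ∈ Fintype.piFinset E, (∑ p ∈ G, ff t p a - M) ^ 2 =
      ∑ p ∈ G, ∑ q ∈ G, ∏ i, nT2 (E i) (t i) p q - 2 * M * ∑ p ∈ G, ∏ i, nT (E i) (t i) p + M ^ 2 * W := by
    have h4 : ∀ a : Fin n → ℕ, (∑ p ∈ G, ff t p a - M) ^ 2 = (∑ p ∈ G, ∑ q ∈ G, ff t p a * ff t q a) - 2 * M * (∑ p ∈ G, ff t p a) + M ^ 2 := by
      intro a
      rw [← sum_mul_sum]
      ring
    simp_rw [h4]
    rw [sum_add_distrib, sum_sub_distrib, sum_const, nsmul_eq_mul, card_pi, ← hW, ← mul_sum]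
    have h5 : ∑ a ∈ Fintype.piFinset E, ∑ p ∈ G, ∑ q ∈ G, ff t p a * ff t q a = ∑ p ∈ G, ∑ q ∈ G, ∏ i, nT2 (E i) (t i) p q := by
      rw [sum_comm]
      refine sum_congr rfl fun p _ => ?_
      rw [sum_comm]
      exact sum_congr rfl fun q _ => sum_ff2 t E p q
    have h6 : ∑ a ∈ Fintype.piFinset E, ∑ p ∈ G, ff t p a = ∑ p ∈ G, ∏ i, nT (E i) (t i) p := by
      rw [sum_comm]
      exact sum_congr rfl fun p _ => sum_ff t E p
    rw [h5, h6]
    ring
  rw [e1]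
  have e2 : ∑ p ∈ G, ∑ q ∈ G, ∏ i, nT2 (E i) (t i) p q ≤ (1 + θ) * M ^ 2 * W + u * W * G.card + u * W * bp.card := by
    have h4 : ∀ p ∈ G, ∀ q ∈ G, ∏ i, nT2 (E i) (t i) p q ≤ (1 + θ) * (R p * R q) * W + (if p = q then u * W else 0) + (if (p, q) ∈ bp then u * W else 0) := by
      intro p hp q hq
      have h5 : 0 ≤ (1 + θ) * (R p * R q) * W := by
        have := hR p hp
        have := hR q hq
        positivity
      have h6 : ∏ i, nT2 (E i) (t i) p q ≤ u * W :=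
        (prod_le_prod (fun i _ => nT2_nonneg _ _ _ _) fun i _ => nT2_le _ _ _ _).trans (h3 p hp)
      have h7 : 0 ≤ u * W := by positivity
      by_cases hpq : p = q
      · rw [if_pos hpq]
        split_ifs <;> linarith
      · rw [if_neg hpq]
        by_cases hb : (p, q) ∈ bp
        · rw [if_pos hb]
          linarith
        · rw [if_neg hb]
          have := h2 p hp q hq hpq hb
          linarith
    refine (sum_le_sum fun p hp => sum_le_sum fun q hq => h4 p hp q hq).trans ?_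
    simp only [sum_add_distrib]
    have h5 : ∑ p ∈ G, ∑ q ∈ G, (1 + θ) * (R p * R q) * W = (1 + θ) * M ^ 2 * W := by
      rw [hM, sq, sum_mul_sum, mul_sum, sum_mul]
      refine sum_congr rfl fun p _ => ?_
      rw [mul_sum, sum_mul]
    have h6 : ∑ p ∈ G, ∑ q ∈ G, (if p = q then u * W else 0) = u * W * G.card := by
      simp only [sum_ite_eq, sum_ite_mem, inter_self, sum_const, nsmul_eq_mul]
      ring
    have h7 : ∑ p ∈ G, ∑ q ∈ G, (if (p, q) ∈ bp then u * W else 0) ≤ u * W * bp.card := by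
      rw [← sum_product' G G (fun p q => if (p, q) ∈ bp then u * W else 0), ← sum_filter, sum_const, nsmul_eq_mul, mul_comm]
      refine mul_le_mul_of_nonneg_left ?_ (by positivity)
      exact_mod_cast card_le_card fun y hy => (mem_filter.1 hy).2
    rw [h5, h6]
    linarith
  have e3 : (1 - θ) * M * W ≤ ∑ p ∈ G, ∏ i, nT (E i) (t i) p := by
    rw [hM, mul_sum, sum_mul]
    exact sum_le_sum fun p hp => h1 p hp
  have e4 : 2 * M * ((1 - θ) * M * W) ≤ 2 * M * ∑ p ∈ G, ∏ i, nT (E i) (t i) p := mul_le_mul_of_nonneg_left e3 (by positivity)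
  nlinarith [e2, e4]

end Pool.Agent.Q145.ART
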