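import Pool.Agent.Q145.ART.Fix1

/-!
# Project ART, the second moment. Part 2: elementary estimates
-/

set_option autoImplicit false

namespace Pool.Agent.Q145.ART

open Finset Filter

lemma mem_PP {p x : ℕ} : p ∈ PP x ↔ p ≤ x ∧ p.Prime := by
  unfold PP
  rw [mem_filter, mem_range]
  constructor
  · rintro ⟨h1, h2⟩
    exact ⟨by omega, h2⟩
  · rintro ⟨h1, h2⟩
    exact ⟨by omega, h2⟩

lemma card_PP (x : ℕ) : (PP x).card ≤ x := by
  have h : PP x ⊆ Icc 1 x := by
    intro p hp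
    obtain ⟨h1, h2⟩ := mem_PP.1 hp
    exact mem_Icc.2 ⟨h2.pos, h1⟩
  simpa using card_le_card h

lemma totient_even_le (n : ℕ) : Even n → 2 * Nat.totient n ≤ n := by
  induction n using Nat.strong_induction_on with
  | _ n ih =>
    rintro ⟨k, hk⟩
    rcases Nat.eq_zero_or_pos k with h0 | h0
    · subst h0
      subst hk
      simp
    · have hn : n = 2 * k := by omega
      rcases Nat.even_or_odd k with h | h
      · have h1 := ih k (by omega) h
        rw [hn, Nat.totient_two_mul_of_even h]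
        omega
      · rw [hn, Nat.totient_two_mul_of_odd h]
        have := Nat.totient_le k
        omega

lemma le_tau_mul_totient (n : ℕ) : n ≤ n.divisors.card * Nat.totient n := by
  rcases Nat.eq_zero_or_pos n with h0 | h0
  · subst h0
    simp
  · calc n = ∑ d ∈ n.divisors, Nat.totient d := (Nat.sum_totient n).symm
      _ ≤ ∑ _d ∈ n.divisors, Nat.totient n := by
        refine sum_le_sum fun d hd => ?_
        exact Nat.le_of_dvd (Nat.totient_pos.2 h0) (Nat.totient_dvd_of_dvd (Nat.dvd_of_mem_divisors hd))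
      _ = n.divisors.card * Nat.totient n := by rw [sum_const, smul_eq_mul]

lemma tt_ge {p : ℕ} (hp : 2 < p) : 2 ≤ tt p := by
  unfold tt
  have h : ({1, p - 1} : Finset ℕ) ⊆ (p - 1).divisors := by
    intro d hd
    rw [mem_insert, mem_singleton] at hd
    rw [Nat.mem_divisors]
    rcases hd with rfl | rfl
    · exact ⟨one_dvd _, by omega⟩
    · exact ⟨dvd_rfl, by omega⟩
  have h2 := card_le_card h
  rw [card_pair (by omega)] at h2
  exact_mod_cast h2

lemma rr_ge {p : ℕ} (hp : 2 < p) (t : ℤ) : 1 / tt p ≤ rr p t := by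
  have ht := tt_ge hp
  unfold rr
  split_ifs with h
  · have h1 := le_tau_mul_totient (p - 1)
    have h2 : (((p - 1 : ℕ) : ℝ)) ≤ tt p * (Nat.totient (p - 1) : ℝ) := by
      unfold tt
      exact_mod_cast h1
    have h3 : (0 : ℝ) < ((p - 1 : ℕ) : ℝ) := by exact_mod_cast (by omega : 0 < p - 1)
    rw [div_le_div_iff₀ (by linarith) h3]
    linarith
  · exact one_div_le_one_div_of_le (by norm_num) ht

lemma rr_le {p : ℕ} (hp : p.Prime) (hp2 : 2 < p) (t : ℤ) : rr p t ≤ 1 / 2 := by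
  unfold rr
  split_ifs with h
  · have h1 : Even (p - 1) := by
      rcases hp.eq_two_or_odd' with h2 | h2
      · omega
      · obtain ⟨k, hk⟩ := h2
        exact ⟨k, by omega⟩
    have h2 := totient_even_le _ h1
    have h3 : (0 : ℝ) < ((p - 1 : ℕ) : ℝ) := by exact_mod_cast (by omega : 0 < p - 1)
    rw [div_le_div_iff₀ h3 (by norm_num)]
    have h4 : (2 : ℝ) * (Nat.totient (p - 1) : ℝ) ≤ ((p - 1 : ℕ) : ℝ) := by exact_mod_cast h2
    linarith
  · exact le_rfl

lemma rr_nonneg (p : ℕ) (t : ℤ) : 0 ≤ rr p t := by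
  unfold rr
  split_ifs <;> positivity

lemma ww_nonneg (p : ℕ) (t : ℤ) : 0 ≤ ww p t := by
  unfold ww
  split_ifs <;> positivity

lemma ww_le {p : ℕ} (hp : p.Prime) (t : ℤ) : ww p t ≤ 1 / 2 := by
  unfold ww
  split_ifs with h
  · have hp0 : (0 : ℝ) < p := by exact_mod_cast hp.pos
    rw [div_le_div_iff₀ hp0 (by norm_num)]
    rcases hp.eq_two_or_odd' with h2 | h2
    · subst h2
      norm_num
    · have h1 : Even (p - 1) := by
        obtain ⟨k, hk⟩ := h2
        exact ⟨k, by omega⟩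
      have h3 := totient_even_le _ h1
      have h4 : 2 * Nat.totient (p - 1) ≤ p := by omega
      have h5 : (2 : ℝ) * (Nat.totient (p - 1) : ℝ) ≤ (p : ℝ) := by exact_mod_cast h4
      linarith
  · exact le_rfl

lemma ww_le_rr {p : ℕ} (hp : 2 < p) (t : ℤ) : ww p t ≤ rr p t := by
  unfold ww rr
  split_ifs with h
  · have h3 : (0 : ℝ) < ((p - 1 : ℕ) : ℝ) := by exact_mod_cast (by omega : 0 < p - 1)
    have h4 : ((p - 1 : ℕ) : ℝ) ≤ p := by exact_mod_cast (by omega : p - 1 ≤ p)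
    exact div_le_div_of_nonneg_left (Nat.cast_nonneg _) h3 h4
  · exact le_rfl

lemma ww_ge_rr {p : ℕ} (hp : 2 < p) (t : ℤ) : (1 - 1 / (p : ℝ)) * rr p t ≤ ww p t := by
  have hp0 : (0 : ℝ) < p := by exact_mod_cast (by omega : 0 < p)
  unfold ww rr
  split_ifs with h
  · have h3 : (0 : ℝ) < ((p - 1 : ℕ) : ℝ) := by exact_mod_cast (by omega : 0 < p - 1)
    have h4 : ((p - 1 : ℕ) : ℝ) = p - 1 := by
      rw [Nat.cast_sub (by omega)]
      simp
    rw [h4] at h3 ⊢
    have : (1 - 1 / (p : ℝ)) * ((Nat.totient (p - 1) : ℝ) / ((p : ℝ) - 1)) = (Nat.totient (p - 1) : ℝ) / p := by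
      field_simp
    rw [this]
  · have : 0 ≤ 1 / (p : ℝ) := by positivity
    linarith

lemma prod_const_le {n : ℕ} {f : Fin n → ℝ} {c : ℝ} (h0 : ∀ i, 0 ≤ f i) (h : ∀ i, f i ≤ c) : ∏ i, f i ≤ c ^ n := by
  calc ∏ i, f i ≤ ∏ _i : Fin n, c := prod_le_prod (fun i _ => h0 i) fun i _ => h i
    _ = c ^ n := by simp

lemma one_add_pow_le {η : ℝ} {n : ℕ} (hη : 0 ≤ η) (h : (n : ℝ) * η ≤ 1) : (1 + η) ^ n ≤ 1 + 2 * (n * η) := by
  have h1 : (1 + η) ^ n ≤ Real.exp (n * η) := by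
    rw [mul_comm, Real.exp_mul, Real.rpow_natCast]
    refine pow_le_pow_left₀ (by linarith) ?_ n
    have := Real.add_one_le_exp η
    linarith
  have h2 : Real.exp (n * η) ≤ 1 + (n * η) + (n * η) ^ 2 := by
    have h0 : 0 ≤ (n : ℝ) * η := by positivity
    have := Real.abs_exp_sub_one_sub_id_le (x := (n : ℝ) * η) (by rw [abs_of_nonneg h0]; exact h)
    have h3 := (abs_le.1 this).2
    linarith
  have h0 : 0 ≤ (n : ℝ) * η := by positivity
  nlinarith

lemma prod_le_one_add {n : ℕ} {u v : Fin n → ℝ} {η : ℝ} (hη : 0 ≤ η) (hn : (n : ℝ) * η ≤ 1) (hu : ∀ i, 0 ≤ u i) (hv : ∀ i, 0 ≤ v i)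
    (h : ∀ i, u i ≤ (1 + η) * v i) : ∏ i, u i ≤ (1 + 2 * (n * η)) * ∏ i, v i := by
  calc ∏ i, u i ≤ ∏ i, ((1 + η) * v i) := prod_le_prod (fun i _ => hu i) fun i _ => h i
    _ = (1 + η) ^ n * ∏ i, v i := by
      rw [prod_mul_distrib]
      simp
    _ ≤ _ := mul_le_mul_of_nonneg_right (one_add_pow_le hη hn) (prod_nonneg fun i _ => hv i)

lemma prod_ge_one_sub {n : ℕ} {u v : Fin n → ℝ} {η : ℝ} (hη1 : η ≤ 1) (hv : ∀ i, 0 ≤ v i)
    (h : ∀ i, (1 - η) * v i ≤ u i) : (1 - n * η) * ∏ i, v i ≤ ∏ i, u i := by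
  have h0 : 0 ≤ 1 - η := by linarith
  calc (1 - n * η) * ∏ i, v i ≤ (1 - η) ^ n * ∏ i, v i := by
        refine mul_le_mul_of_nonneg_right ?_ (prod_nonneg fun i _ => hv i)
        have := one_add_mul_le_pow (a := -η) (by linarith) n
        calc 1 - n * η = 1 + n * -η := by ring
          _ ≤ (1 + -η) ^ n := this
          _ = (1 - η) ^ n := by ring
    _ = ∏ i, ((1 - η) * v i) := by
      rw [prod_mul_distrib]
      simp
    _ ≤ _ := prod_le_prod (fun i _ => mul_nonneg h0 (hv i)) fun i _ => h i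

/-- the main term from below -/
lemma main_ge {n : ℕ} (t : Fin n → ℤ) (x : ℕ) {c : ℝ}
    (h : ∀ K : ℕ, K ≤ n → (1 / 2 : ℝ) ^ K * c ≤ ∑ p ∈ PP x, ((Nat.totient (p - 1) : ℝ) / (p : ℝ)) ^ K) : (1 / 2 : ℝ) ^ n * c ≤ main t x := by
  classical
  set K := ((univ : Finset (Fin n)).filter (fun i => t i = 0)).card with hK
  have hKn : K ≤ n := by
    have := card_filter_le (univ : Finset (Fin n)) (fun i => t i = 0)
    simpa using this
  have h1 : ∀ p : ℕ, ∏ i, ww p (t i) = (1 / 2 : ℝ) ^ (n - K) * ((Nat.totient (p - 1) : ℝ) / (p : ℝ)) ^ K := by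
    intro p
    unfold ww
    rw [prod_ite, prod_const, prod_const, mul_comm]
    congr 2
    have h2 := card_filter_add_card_filter_not (s := (univ : Finset (Fin n))) (fun i => t i = 0)
    rw [card_univ, Fintype.card_fin] at h2
    omega
  unfold main
  simp_rw [h1]
  rw [← mul_sum]
  calc (1 / 2 : ℝ) ^ n * c = (1 / 2 : ℝ) ^ (n - K) * ((1 / 2 : ℝ) ^ K * c) := by
        rw [← mul_assoc, ← pow_add, Nat.sub_add_cancel hKn]
    _ ≤ _ := mul_le_mul_of_nonneg_left (h K hKn) (by positivity)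

end Pool.Agent.Q145.ART
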