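import Pool.Agent.Q145.ART.Fix2

/-!
# Project ART, the second moment. Part 3: the core estimate
-/

set_option autoImplicit false

namespace Pool.Agent.Q145.ART

open Finset Filter

lemma est1 {nt r e tt' V Np T d : ℝ} (he : 0 ≤ e) (hT : 1 ≤ T) (hd : 0 ≤ d) (ht : tt' ≤ T) (_ht0 : 0 ≤ tt') (hr : 1 / T ≤ r) (hV : V ≤ d * e) (hN : Np ≤ d * e) (hV0 : 0 ≤ V) (hN0 : 0 ≤ Np)
    (h : |nt - r * e| ≤ 2 * tt' * (V + Np)) : (1 - 12 * T ^ 4 * d) * (r * e) ≤ nt := by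
  have h1 := (abs_le.1 h).1
  have h2 : 2 * tt' * (V + Np) ≤ 2 * T * (d * e + d * e) :=
    mul_le_mul (by linarith) (by linarith) (by linarith) (by linarith)
  have h3 : 12 * T ^ 3 * d * e ≤ 12 * T ^ 4 * d * (r * e) := by
    have h4 : 1 ≤ T * r := by
      rw [div_le_iff₀ (by linarith)] at hr
      linarith
    have h5 : 0 ≤ 12 * T ^ 3 * d * e := by positivity
    calc 12 * T ^ 3 * d * e = 12 * T ^ 3 * d * e * 1 := by ring
      _ ≤ 12 * T ^ 3 * d * e * (T * r) := mul_le_mul_of_nonneg_left h4 h5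
      _ = _ := by ring
  have h6 : 4 * T * (d * e) ≤ 12 * T ^ 3 * d * e := by
    have h7 : T ≤ T ^ 3 := le_self_pow₀ hT (by norm_num)
    have h8 : 0 ≤ d * e := by positivity
    nlinarith
  nlinarith

lemma est2 {nt r r' e t1 t2 V Np Nq T d : ℝ} (he : 0 ≤ e) (hT : 1 ≤ T) (hd : 0 ≤ d) (ht1 : t1 ≤ T) (_ht10 : 0 ≤ t1) (ht2 : t2 ≤ T) (ht20 : 0 ≤ t2)
    (hr : 1 / T ≤ r) (hr' : 1 / T ≤ r') (hV : V ≤ d * e) (hNp : Np ≤ d * e) (hNq : Nq ≤ d * e) (hV0 : 0 ≤ V) (hNp0 : 0 ≤ Np) (hNq0 : 0 ≤ Nq)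
    (h : |nt - r * r' * e| ≤ 4 * t1 * t2 * (V + Np + Nq)) : nt ≤ (1 + 12 * T ^ 4 * d) * (r * r' * e) := by
  have h1 := (abs_le.1 h).2
  have h2 : 4 * t1 * t2 * (V + Np + Nq) ≤ 4 * T * T * (d * e + d * e + d * e) := by
    refine mul_le_mul ?_ (by linarith) (by linarith) (by positivity)
    exact mul_le_mul (by linarith) ht2 ht20 (by linarith)
  have h3 : 12 * T ^ 2 * d * e ≤ 12 * T ^ 4 * d * (r * r' * e) := by
    have h4 : 1 ≤ T * r := by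
      rw [div_le_iff₀ (by linarith)] at hr
      linarith
    have h4' : 1 ≤ T * r' := by
      rw [div_le_iff₀ (by linarith)] at hr'
      linarith
    have h5 : 0 ≤ 12 * T ^ 2 * d * e := by positivity
    calc 12 * T ^ 2 * d * e = 12 * T ^ 2 * d * e * (1 * 1) := by ring
      _ ≤ 12 * T ^ 2 * d * e * ((T * r) * (T * r')) := mul_le_mul_of_nonneg_left (mul_le_mul h4 h4' (by norm_num) (by linarith)) h5
      _ = _ := by ring
  nlinarith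

lemma est1' {nt r e tt' V Np T d η : ℝ} (hη : η = 12 * T ^ 4 * d) (he : 0 ≤ e) (hT : 1 ≤ T) (hd : 0 ≤ d) (ht : tt' ≤ T) (ht0 : 0 ≤ tt') (hr : 1 / T ≤ r) (hV : V ≤ d * e) (hN : Np ≤ d * e) (hV0 : 0 ≤ V) (hN0 : 0 ≤ Np)
    (h : |nt - r * e| ≤ 2 * tt' * (V + Np)) : (1 - η) * (r * e) ≤ nt := by
  rw [hη]
  exact est1 he hT hd ht ht0 hr hV hN hV0 hN0 h

lemma est2' {nt r r' e t1 t2 V Np Nq T d η : ℝ} (hη : η = 12 * T ^ 4 * d) (he : 0 ≤ e) (hT : 1 ≤ T) (hd : 0 ≤ d) (ht1 : t1 ≤ T) (ht10 : 0 ≤ t1) (ht2 : t2 ≤ T) (ht20 : 0 ≤ t2)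
    (hr : 1 / T ≤ r) (hr' : 1 / T ≤ r') (hV : V ≤ d * e) (hNp : Np ≤ d * e) (hNq : Nq ≤ d * e) (hV0 : 0 ≤ V) (hNp0 : 0 ≤ Np) (hNq0 : 0 ≤ Nq)
    (h : |nt - r * r' * e| ≤ 4 * t1 * t2 * (V + Np + Nq)) : nt ≤ (1 + η) * (r * r' * e) := by
  rw [hη]
  exact est2 he hT hd ht1 ht10 ht2 ht20 hr hr' hV hNp hNq hV0 hNp0 hNq0 h

lemma alg1 (k A B W : ℝ) : (1 + k) * (A * B * W) = (1 + k) * (A * B) * W := by ring

lemma alg2 {k h W : ℝ} (hk : k ≤ 1 / 2) (h0 : 0 ≤ h * W) : (1 + 2 * k) * (h * W) ≤ 2 * h * W := by nlinarith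

lemma alg3 {k R W : ℝ} (hk : 0 ≤ k) (h0 : 0 ≤ R * W) : (1 - 2 * k) * R * W ≤ (1 - k) * (R * W) := by nlinarith

lemma alg4 {a k R w h : ℝ} (h8 : k * R ≤ h) (h9 : (1 - k) * R ≤ w) (ha : a = h) : R ≤ w + a := by
  subst ha
  nlinarith

lemma alg5 {g x h : ℝ} (hg : g ≤ x) (h0 : 0 ≤ h) (w : ℝ) : w + g * h ≤ w + x * h := by nlinarith

lemma alg6 {w wH wS M e h H S : ℝ} (_h0 : 0 ≤ h) (h2 : wH ≤ h * H) (h3 : wS ≤ h * S) (h20 : 0 ≤ wH) (h30 : 0 ≤ wS) (h6 : w ≤ M) (h7 : M ≤ w + h * e) (h8 : 0 ≤ h * e) (hH : 0 ≤ h * H) (hS : 0 ≤ h * S) :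
    |w + wH + wS - M| ≤ h * (e + H + S) := by
  rw [abs_le]
  constructor <;> nlinarith

lemma alg7 {θ A B u g b x b₀ : ℝ} (hθ : 0 ≤ θ) (hA : A ≤ B) (hu : 0 ≤ u) (hg : g ≤ x) (hb : b ≤ b₀) : 3 * θ * A + u * (g + b) ≤ 3 * θ * B + u * (x + b₀) := by
  have h4 := mul_le_mul_of_nonneg_left hA (by positivity : 0 ≤ 3 * θ)
  have h5 := mul_le_mul_of_nonneg_left (add_le_add hg hb) hu
  linarith

lemma alg8 {Z M c : ℝ} (hc : 0 < c) (h : (Z - M) ^ 2 ≤ c ^ 2 / 16) : |Z - M| ≤ c / 4 := by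
  rw [abs_le]
  constructor <;> nlinarith

lemma alg9 {Z Y S m M c s₀ : ℝ} (h3 : |Z - M| ≤ c / 4) (h2 : Y ≤ c / 4) (hY0 : 0 ≤ Y) (hS0 : 0 ≤ S) (hS1 : S ≤ s₀) (h4 : s₀ + |m - M| ≤ c / 2) : |Z + Y + S - m| ≤ c := by
  have e1 : Z + Y + S - m = (Z - M) + -(m - M) + (Y + S) := by ring
  rw [e1]
  refine (abs_add_le _ _).trans ?_
  have e2 := abs_add_le (Z - M) (-(m - M))
  rw [abs_neg] at e2
  have e3 : |Y + S| = Y + S := abs_of_nonneg (add_nonneg hY0 hS0)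
  rw [e3]
  linarith

lemma alg10 {W θ h x b₀ lam : ℝ} (hh : 0 < h) (hx : 0 < x) (hl : 0 < lam) :
    W * (3 * θ * (h * x) ^ 2 + 2 * h * (x + b₀)) = W * (48 * θ / lam ^ 2 + 32 * (1 + b₀ / x) / (h * x * lam ^ 2)) * ((h * x * lam) ^ 2 / 16) := by
  field_simp
  ring

lemma alg11 {W h₀ h x lam : ℝ} (hh : 0 < h) (hx : 0 < x) (hl : 0 < lam) :
    h₀ * (2 * h * W) = W * (8 * (h₀ / x) / lam) * (h * x * lam / 4) := by
  field_simp
  ring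

theorem core' (h1S : S_EXP) (hONE : S_ONE) (hTWO : S_TWO) (hUPP : S_UPP)
    {n : ℕ} (x N : ℕ) (E : Fin n → Finset ℕ) (t : Fin n → ℤ) (V : Fin n → ℝ) (T d y s₀ h₀ b₀ lam η W u θ c M : ℝ) (R : ℕ → ℝ) (G H S : Finset ℕ) (bp : Finset (ℕ × ℕ))
    (hη : η = 12 * T ^ 4 * d) (hW : W = ∏ i, ((E i).card : ℝ)) (hu : u = 2 * (1 / 2 : ℝ) ^ n) (hθ : θ = 2 * (n * η)) (hcdef : c = (1 / 2 : ℝ) ^ n * x * lam) (hR : ∀ p, R p = ∏ i, rr p (t i)) (hM : M = ∑ p ∈ G, R p)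
    (hx : 1 ≤ x) (ht : ∀ i, IsT (t i)) (hE : ∀ i, E i ⊆ Icc 1 N) (hE0 : ∀ i, 0 < ((E i).card : ℝ)) (hV0 : ∀ i, 0 ≤ V i)
    (hT : 1 ≤ T) (hd : 0 ≤ d) (hy : 2 ≤ y) (hdn : (n : ℝ) * η ≤ 1 / 2) (hd1 : η ≤ 1) (hlam : 0 < lam) (hs₀ : 0 ≤ s₀) (hh₀ : 0 ≤ h₀) (hb₀ : 0 ≤ b₀)
    (hV : ∀ i, V i ≤ d * (E i).card) (hN : ∀ i, ∀ p : ℕ, y < p → (N : ℝ) / p ≤ d * (E i).card)
    (hun : PP x = (G ∪ H) ∪ S) (hGH : Disjoint G H) (hGHS : Disjoint (G ∪ H) S)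
    (hG : ∀ p ∈ G, y < p ∧ tt p ≤ T ∧ ∀ i, CB (E i) (V i) p) (hH : ∀ p ∈ H, 2 < p ∧ ∀ i, CB (E i) (V i) p)
    (hbp : ∀ p ∈ G, ∀ q ∈ G, p ≠ q → (p, q) ∉ bp → ∀ i, CB (E i) (V i) (p * q))
    (hHc : (H.card : ℝ) ≤ h₀) (hSc : (S.card : ℝ) ≤ s₀) (hbc : (bp.card : ℝ) ≤ b₀)
    (hc : s₀ + (1 / 2 : ℝ) ^ n * (x * (n / y) + h₀ + s₀) ≤ c / 2) :
    num (Fintype.piFinset E) (fun a => c < |cnt t a x - main t x|) ≤
      W * (48 * θ / lam ^ 2 + 32 * (1 + b₀ / x) / ((1 / 2 : ℝ) ^ n * x * lam ^ 2) + 8 * (h₀ / x) / lam) := by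
  classical
  have hGP : ∀ p ∈ G, p ∈ PP x := fun p hp => by
    rw [hun]
    exact mem_union_left _ (mem_union_left _ hp)
  have hHP : ∀ p ∈ H, p ∈ PP x := fun p hp => by
    rw [hun]
    exact mem_union_left _ (mem_union_right _ hp)
  have hSP : ∀ p ∈ S, p ∈ PP x := fun p hp => by
    rw [hun]
    exact mem_union_right _ hp
  have hG2 : ∀ p ∈ G, 2 < p := fun p hp => by
    have := (hG p hp).1
    exact_mod_cast lt_of_le_of_lt hy this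
  have hη0 : 0 ≤ η := by
    rw [hη]
    positivity
  have hW0 : 0 < W := by
    rw [hW]
    exact prod_pos fun i _ => hE0 i
  have hhn : (0 : ℝ) < (1 / 2 : ℝ) ^ n := by positivity
  have hu0 : 0 ≤ u := by
    rw [hu]
    positivity
  have hθ0 : 0 ≤ θ := by
    rw [hθ]
    positivity
  have hR0 : ∀ p, 0 ≤ R p := fun p => by
    rw [hR]
    exact prod_nonneg fun i _ => rr_nonneg _ _
  have hRle : ∀ p ∈ G, R p ≤ (1 / 2 : ℝ) ^ n := fun p hp => by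
    rw [hR]
    exact prod_const_le (fun i => rr_nonneg _ _) fun i => rr_le (mem_PP.1 (hGP p hp)).2 (hG2 p hp) _
  have hx0 : (0 : ℝ) < x := by exact_mod_cast hx
  have hdn' : (n : ℝ) * η ≤ 1 := by linarith
  have hdd : d ≤ η := by
    rw [hη]
    have : 1 ≤ T ^ 4 := one_le_pow₀ hT
    nlinarith
  -- upper bound for the number of elements of one type
  have hup : ∀ p, p.Prime → 2 < p → (∀ i, CB (E i) (V i) p) → ∏ i, nT (E i) (t i) p ≤ u * W := by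
    intro p hp hp2 hcb
    have h1 : ∀ i, nT (E i) (t i) p ≤ (1 + η) * ((1 / 2) * (E i).card) := by
      intro i
      have h2 := hUPP p (E i) (t i) (V i) hp hp2 (ht i) (hcb i)
      have h3 : V i ≤ η * (E i).card := (hV i).trans (mul_le_mul_of_nonneg_right hdd (hE0 i).le)
      linarith
    have h4 := prod_le_one_add hη0 hdn' (fun i => nT_nonneg (E i) (t i) p) (fun i => mul_nonneg (by norm_num) (hE0 i).le) h1
    rw [prod_mul_distrib] at h4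
    simp only [prod_const, card_univ, Fintype.card_fin] at h4
    refine h4.trans ?_
    rw [← hW, hu]
    exact alg2 hdn (mul_nonneg hhn.le hW0.le)
  -- second moment over the good primes
  have hsm := sm t E G bp R θ u W hW hθ0 hu0 (fun p _ => hR0 p)
    (fun p hp => by
      have hpr := (mem_PP.1 (hGP p hp)).2
      obtain ⟨g1, g2, g3⟩ := hG p hp
      have h5 : ∀ i, (1 - η) * (rr p (t i) * (E i).card) ≤ nT (E i) (t i) p := fun i =>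
        est1' hη (hE0 i).le hT hd g2 (by have := tt_ge (hG2 p hp); linarith) ((one_div_le_one_div_of_le (by have := tt_ge (hG2 p hp); linarith) g2).trans (rr_ge (hG2 p hp) _)) (hV i) (hN i p g1) (hV0 i) (by positivity)
          (hONE h1S N p (E i) (t i) (V i) hpr (hG2 p hp) (hE i) (ht i) (hV0 i) (g3 i))
      have h6 := prod_ge_one_sub (n := n) hd1 (fun i => mul_nonneg (rr_nonneg p (t i)) (hE0 i).le) h5
      rw [prod_mul_distrib, ← hW, ← hR] at h6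
      have h7 : (1 - θ) * R p * W ≤ (1 - n * η) * (R p * W) := by
        rw [hθ]
        exact alg3 (by positivity) (mul_nonneg (hR0 p) hW0.le)
      exact h7.trans h6)
    (fun p hp q hq hpq hb => by
      have hpr := (mem_PP.1 (hGP p hp)).2
      have hqr := (mem_PP.1 (hGP q hq)).2
      obtain ⟨g1, g2, g3⟩ := hG p hp
      obtain ⟨k1, k2, k3⟩ := hG q hq
      have h5 : ∀ i, nT2 (E i) (t i) p q ≤ (1 + η) * (rr p (t i) * rr q (t i) * (E i).card) := fun i =>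
        est2' hη (hE0 i).le hT hd g2 (by have := tt_ge (hG2 p hp); linarith) k2 (by have := tt_ge (hG2 q hq); linarith)
          ((one_div_le_one_div_of_le (by have := tt_ge (hG2 p hp); linarith) g2).trans (rr_ge (hG2 p hp) _))
          ((one_div_le_one_div_of_le (by have := tt_ge (hG2 q hq); linarith) k2).trans (rr_ge (hG2 q hq) _)) (hV i) (hN i p g1) (hN i q k1) (hV0 i) (by positivity) (by positivity)
          (hTWO h1S N p q (E i) (t i) (V i) hpr (hG2 p hp) hqr (hG2 q hq) hpq (hE i) (ht i) (hV0 i) (g3 i) (k3 i) (hbp p hp q hq hpq hb i))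
      have h6 := prod_le_one_add hη0 hdn' (fun i => nT2_nonneg (E i) (t i) p q) (fun i => mul_nonneg (mul_nonneg (rr_nonneg p (t i)) (rr_nonneg q (t i))) (hE0 i).le) h5
      rw [prod_mul_distrib, prod_mul_distrib, ← hW, ← hR, ← hR, ← hθ] at h6
      exact h6.trans (le_of_eq (alg1 θ (R p) (R q) W)))
    (fun p hp => hup p (mem_PP.1 (hGP p hp)).2 (hG2 p hp) (hG p hp).2.2)
  rw [← hM] at hsm
  have hM0 : 0 ≤ M := by
    rw [hM]
    exact sum_nonneg fun p _ => hR0 p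
  have hGc : (G.card : ℝ) ≤ x := by
    have h1 : G.card ≤ (PP x).card := card_le_card fun p hp => hGP p hp
    exact_mod_cast h1.trans (card_PP x)
  have hMle : M ≤ (1 / 2 : ℝ) ^ n * x := by
    rw [hM]
    calc _ ≤ ∑ _p ∈ G, (1 / 2 : ℝ) ^ n := sum_le_sum fun p hp => hRle p hp
      _ = G.card * (1 / 2 : ℝ) ^ n := by rw [sum_const, nsmul_eq_mul]
      _ ≤ x * (1 / 2 : ℝ) ^ n := mul_le_mul_of_nonneg_right hGc (by positivity)
      _ = _ := by ring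
  set Z : (Fin n → ℕ) → ℝ := fun a => ∑ p ∈ G, ff t p a with hZ
  set Y : (Fin n → ℕ) → ℝ := fun a => ∑ p ∈ H, ff t p a with hY
  have hc0 : 0 < c := by
    rw [hcdef]
    positivity
  -- the sum over H
  have hYs : ∑ a ∈ Fintype.piFinset E, Y a ≤ h₀ * (u * W) := by
    rw [hY]
    simp only
    rw [sum_comm]
    calc ∑ p ∈ H, ∑ a ∈ Fintype.piFinset E, ff t p a ≤ ∑ _p ∈ H, u * W := by
          refine sum_le_sum fun p hp => ?_
          rw [sum_ff]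
          exact hup p (mem_PP.1 (hHP p hp)).2 (hH p hp).1 (hH p hp).2
      _ = H.card * (u * W) := by rw [sum_const, nsmul_eq_mul]
      _ ≤ _ := mul_le_mul_of_nonneg_right hHc (mul_nonneg hu0 hW0.le)
  -- main term
  have hwle : ∀ p ∈ PP x, ∏ i, ww p (t i) ≤ (1 / 2 : ℝ) ^ n := fun p hp => prod_const_le (fun i => ww_nonneg _ _) fun i => ww_le (mem_PP.1 hp).2 _
  have hw0 : ∀ p, 0 ≤ ∏ i, ww p (t i) := fun p => prod_nonneg fun i _ => ww_nonneg _ _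
  have hmain : |main t x - M| ≤ (1 / 2 : ℝ) ^ n * (x * (n / y) + h₀ + s₀) := by
    have h1 : main t x = ∑ p ∈ G, ∏ i, ww p (t i) + ∑ p ∈ H, ∏ i, ww p (t i) + ∑ p ∈ S, ∏ i, ww p (t i) := by
      unfold main
      rw [hun, sum_union hGHS, sum_union hGH]
    have h2 : ∑ p ∈ H, ∏ i, ww p (t i) ≤ (1 / 2 : ℝ) ^ n * h₀ := by
      calc _ ≤ ∑ _p ∈ H, (1 / 2 : ℝ) ^ n := sum_le_sum fun p hp => hwle p (hHP p hp)
        _ = H.card * (1 / 2 : ℝ) ^ n := by rw [sum_const, nsmul_eq_mul]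
        _ ≤ h₀ * (1 / 2 : ℝ) ^ n := mul_le_mul_of_nonneg_right hHc (by positivity)
        _ = _ := by ring
    have h3 : ∑ p ∈ S, ∏ i, ww p (t i) ≤ (1 / 2 : ℝ) ^ n * s₀ := by
      calc _ ≤ ∑ _p ∈ S, (1 / 2 : ℝ) ^ n := sum_le_sum fun p hp => hwle p (hSP p hp)
        _ = S.card * (1 / 2 : ℝ) ^ n := by rw [sum_const, nsmul_eq_mul]
        _ ≤ s₀ * (1 / 2 : ℝ) ^ n := mul_le_mul_of_nonneg_right hSc (by positivity)
        _ = _ := by ring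
    have h20 : 0 ≤ ∑ p ∈ H, ∏ i, ww p (t i) := sum_nonneg fun p _ => hw0 p
    have h30 : 0 ≤ ∑ p ∈ S, ∏ i, ww p (t i) := sum_nonneg fun p _ => hw0 p
    have h4 : ∀ p ∈ G, ∏ i, ww p (t i) ≤ R p := fun p hp => by
      rw [hR]
      exact prod_le_prod (fun i _ => ww_nonneg _ _) fun i _ => ww_le_rr (hG2 p hp) _
    have h5 : ∀ p ∈ G, R p ≤ ∏ i, ww p (t i) + (1 / 2 : ℝ) ^ n * (n / y) := by
      intro p hp
      have hp0 : (0 : ℝ) < p := by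
        have := hG2 p hp
        exact_mod_cast (by omega : 0 < p)
      have hp1 : 1 / (p : ℝ) ≤ 1 := by
        rw [div_le_one hp0]
        have := hG2 p hp
        exact_mod_cast (by omega : 1 ≤ p)
      have h6 := prod_ge_one_sub (n := n) hp1 (fun i => rr_nonneg p (t i)) (fun i => ww_ge_rr (hG2 p hp) (t i))
      rw [← hR] at h6
      have h7 : (n : ℝ) * (1 / p) ≤ n / y := by
        rw [mul_one_div]
        exact div_le_div_of_nonneg_left (Nat.cast_nonneg _) (by linarith) (hG p hp).1.le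
      have h8 : (n : ℝ) * (1 / p) * R p ≤ n / y * (1 / 2 : ℝ) ^ n := mul_le_mul h7 (hRle p hp) (hR0 p) (by positivity)
      exact alg4 h8 h6 (mul_comm _ _)
    have h6 : ∑ p ∈ G, ∏ i, ww p (t i) ≤ M := by
      rw [hM]
      exact sum_le_sum h4
    have h7 : M ≤ ∑ p ∈ G, ∏ i, ww p (t i) + (1 / 2 : ℝ) ^ n * (x * (n / y)) := by
      rw [hM]
      calc _ ≤ ∑ p ∈ G, (∏ i, ww p (t i) + (1 / 2 : ℝ) ^ n * (n / y)) := sum_le_sum h5
        _ = ∑ p ∈ G, ∏ i, ww p (t i) + G.card * ((1 / 2 : ℝ) ^ n * (n / y)) := by rw [sum_add_distrib, sum_const, nsmul_eq_mul]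
        _ ≤ ∑ p ∈ G, ∏ i, ww p (t i) + x * ((1 / 2 : ℝ) ^ n * (n / y)) := alg5 hGc (by positivity) _
        _ = _ := by ring
    have h8 : 0 ≤ (1 / 2 : ℝ) ^ n * (x * (n / y)) := by positivity
    rw [h1]
    exact alg6 (by positivity) h2 h3 h20 h30 h6 h7 h8 (by positivity) (by positivity)
  -- decomposition
  have hdec : ∀ a, cnt t a x = Z a + Y a + ∑ p ∈ S, ff t p a := by
    intro a
    rw [cnt_eq, hun, sum_union hGHS, sum_union hGH]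
  have hS1 : ∀ a, ∑ p ∈ S, ff t p a ≤ s₀ := by
    intro a
    calc ∑ p ∈ S, ff t p a ≤ ∑ _p ∈ S, (1 : ℝ) := sum_le_sum fun p _ => ff_le_one t p a
      _ = S.card := by simp
      _ ≤ s₀ := hSc
  have hS0 : ∀ a, 0 ≤ ∑ p ∈ S, ff t p a := fun a => sum_nonneg fun p _ => ff_nonneg t p a
  have hY0 : ∀ a, 0 ≤ Y a := fun a => sum_nonneg fun p _ => ff_nonneg t p a
  have hsplit : num (Fintype.piFinset E) (fun a => c < |cnt t a x - main t x|) ≤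
      num (Fintype.piFinset E) (fun a => c ^ 2 / 16 < (Z a - M) ^ 2) + num (Fintype.piFinset E) (fun a => c / 4 < Y a) := by
    refine (num_mono _ fun a _ ha => ?_).trans (num_or_le _ _ _)
    by_contra hcon
    push Not at hcon
    obtain ⟨h1, h2⟩ := hcon
    have h3 : |Z a - M| ≤ c / 4 := alg8 hc0 h1
    have h4 : |cnt t a x - main t x| ≤ c := by
      rw [hdec a]
      exact alg9 h3 h2 (hY0 a) (hS0 a) (hS1 a) ((add_le_add le_rfl hmain).trans hc)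
    exact absurd ha (not_lt.2 h4)
  refine hsplit.trans ?_
  have hm1 := markov (Fintype.piFinset E) (fun a => (Z a - M) ^ 2) (fun a _ => sq_nonneg _) (c := c ^ 2 / 16) (by positivity)
  have hm2 := markov (Fintype.piFinset E) Y (fun a _ => hY0 a) (c := c / 4) (by positivity)
  have hsm2 : ∑ a ∈ Fintype.piFinset E, (Z a - M) ^ 2 ≤ W * (3 * θ * ((1 / 2 : ℝ) ^ n * x) ^ 2 + u * (x + b₀)) := by
    refine hsm.trans (mul_le_mul_of_nonneg_left ?_ hW0.le)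
    exact alg7 hθ0 (pow_le_pow_left₀ hM0 hMle 2) hu0 hGc hbc
  have e1 : (∑ a ∈ Fintype.piFinset E, (Z a - M) ^ 2) / (c ^ 2 / 16) ≤ W * (48 * θ / lam ^ 2 + 32 * (1 + b₀ / x) / ((1 / 2 : ℝ) ^ n * x * lam ^ 2)) := by
    rw [div_le_iff₀ (by positivity)]
    rw [hcdef]
    rw [hu] at hsm2
    exact hsm2.trans (le_of_eq (alg10 hhn hx0 hlam))
  have e2 : (∑ a ∈ Fintype.piFinset E, Y a) / (c / 4) ≤ W * (8 * (h₀ / x) / lam) := by
    rw [div_le_iff₀ (by positivity)]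
    rw [hcdef]
    rw [hu] at hYs
    exact hYs.trans (le_of_eq (alg11 hhn hx0 hlam))
  calc _ ≤ W * (48 * θ / lam ^ 2 + 32 * (1 + b₀ / x) / ((1 / 2 : ℝ) ^ n * x * lam ^ 2)) + W * (8 * (h₀ / x) / lam) := add_le_add (hm1.trans e1) (hm2.trans e2)
    _ = _ := by ring

theorem core (h1S : S_EXP) (hONE : S_ONE) (hTWO : S_TWO) (hUPP : S_UPP)
    {n : ℕ} (x N : ℕ) (E : Fin n → Finset ℕ) (t : Fin n → ℤ) (V : Fin n → ℝ) (T d y s₀ h₀ b₀ lam : ℝ) (G H S : Finset ℕ) (bp : Finset (ℕ × ℕ))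
    (hx : 1 ≤ x) (ht : ∀ i, IsT (t i)) (hE : ∀ i, E i ⊆ Icc 1 N) (hE0 : ∀ i, 0 < ((E i).card : ℝ)) (hV0 : ∀ i, 0 ≤ V i)
    (hT : 1 ≤ T) (hd : 0 ≤ d) (hy : 2 ≤ y) (hdn : (n : ℝ) * (12 * T ^ 4 * d) ≤ 1 / 2) (hd1 : 12 * T ^ 4 * d ≤ 1) (hlam : 0 < lam) (hs₀ : 0 ≤ s₀) (hh₀ : 0 ≤ h₀) (hb₀ : 0 ≤ b₀)
    (hV : ∀ i, V i ≤ d * (E i).card) (hN : ∀ i, ∀ p : ℕ, y < p → (N : ℝ) / p ≤ d * (E i).card)
    (hun : PP x = (G ∪ H) ∪ S) (hGH : Disjoint G H) (hGHS : Disjoint (G ∪ H) S)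
    (hG : ∀ p ∈ G, y < p ∧ tt p ≤ T ∧ ∀ i, CB (E i) (V i) p) (hH : ∀ p ∈ H, 2 < p ∧ ∀ i, CB (E i) (V i) p)
    (hbp : ∀ p ∈ G, ∀ q ∈ G, p ≠ q → (p, q) ∉ bp → ∀ i, CB (E i) (V i) (p * q))
    (hHc : (H.card : ℝ) ≤ h₀) (hSc : (S.card : ℝ) ≤ s₀) (hbc : (bp.card : ℝ) ≤ b₀)
    (hc : s₀ + (1 / 2 : ℝ) ^ n * (x * (n / y) + h₀ + s₀) ≤ (1 / 2 : ℝ) ^ n * x * lam / 2) :
    num (Fintype.piFinset E) (fun a => (1 / 2 : ℝ) ^ n * x * lam < |cnt t a x - main t x|) ≤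
      (∏ i, ((E i).card : ℝ)) * (48 * (2 * (n * (12 * T ^ 4 * d))) / lam ^ 2 + 32 * (1 + b₀ / x) / ((1 / 2 : ℝ) ^ n * x * lam ^ 2) + 8 * (h₀ / x) / lam) :=
  core' h1S hONE hTWO hUPP x N E t V T d y s₀ h₀ b₀ lam _ _ _ _ _ _ (fun p => ∏ i, rr p (t i)) G H S bp rfl rfl rfl rfl rfl (fun _ => rfl) rfl
    hx ht hE hE0 hV0 hT hd hy hdn hd1 hlam hs₀ hh₀ hb₀ hV hN hun hGH hGHS hG hH hbp hHc hSc hbc hc

end Pool.Agent.Q145.ART
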