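import Pool.Agent.Q145.ART.Fix3

/-!
# Project ART, the second moment. Part 4: the theorem FIX
-/

set_option autoImplicit false

namespace Pool.Agent.Q145.ART

open Finset Filter

/-- the bad conductors -/
noncomputable def BR {n : ℕ} (E : Fin n → Finset ℕ) (V : Fin n → ℝ) (x : ℕ) : Finset ℕ := by
  classical
  exact (Icc 2 (x ^ 2)).filter (fun r => ∃ i, ¬ CB (E i) (V i) r)

lemma card_BR {n : ℕ} (E : Fin n → Finset ℕ) (V : Fin n → ℝ) (x : ℕ) {c : ℝ} (h : ∀ i, num (Icc 2 (x ^ 2)) (fun r => ¬ CB (E i) (V i) r) ≤ c) :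
    ((BR E V x).card : ℝ) ≤ n * c := by
  classical
  have h1 : BR E V x ⊆ univ.biUnion (fun i : Fin n => (Icc 2 (x ^ 2)).filter (fun r => ¬ CB (E i) (V i) r)) := by
    intro r hr
    unfold BR at hr
    rw [mem_filter] at hr
    obtain ⟨hr1, i, hi⟩ := hr
    exact mem_biUnion.2 ⟨i, mem_univ _, mem_filter.2 ⟨hr1, hi⟩⟩
  have h2 : ((BR E V x).card : ℝ) ≤ ∑ i : Fin n, (((Icc 2 (x ^ 2)).filter (fun r => ¬ CB (E i) (V i) r)).card : ℝ) := by
    exact_mod_cast (card_le_card h1).trans card_biUnion_le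
  refine h2.trans ?_
  calc ∑ i : Fin n, (((Icc 2 (x ^ 2)).filter (fun r => ¬ CB (E i) (V i) r)).card : ℝ) ≤ ∑ _i : Fin n, c := by
        refine sum_le_sum fun i _ => ?_
        have h3 := h i
        rw [num_eq] at h3
        rw [card_filter]
        push_cast
        exact h3
    _ = n * c := by simp

lemma card_S {n : ℕ} (E : Fin n → Finset ℕ) (V : Fin n → ℝ) (x : ℕ) {y : ℝ} (hy : 0 ≤ y) (S : Finset ℕ) (hS : S ⊆ PP x) (h : ∀ p ∈ S, (p : ℝ) ≤ y ∨ ∃ i, ¬ CB (E i) (V i) p) :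
    (S.card : ℝ) ≤ y + ((BR E V x).card : ℝ) := by
  classical
  have h1 : S ⊆ Icc 1 ⌊y⌋₊ ∪ BR E V x := by
    intro p hp
    obtain ⟨h2, h3⟩ := mem_PP.1 (hS hp)
    rw [mem_union]
    rcases h p hp with h4 | h4
    · left
      exact mem_Icc.2 ⟨h3.pos, Nat.le_floor h4⟩
    · right
      unfold BR
      rw [mem_filter, mem_Icc]
      exact ⟨⟨h3.two_le, h2.trans (Nat.le_self_pow (by norm_num) x)⟩, h4⟩
  have h2 : S.card ≤ ⌊y⌋₊ + (BR E V x).card := by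
    refine (card_le_card h1).trans ((card_union_le _ _).trans ?_)
    simp
  have h3 : (⌊y⌋₊ : ℝ) ≤ y := Nat.floor_le hy
  have h4 : (S.card : ℝ) ≤ (⌊y⌋₊ : ℝ) + ((BR E V x).card : ℝ) := by exact_mod_cast h2
  linarith

lemma card_bp {n : ℕ} (E : Fin n → Finset ℕ) (V : Fin n → ℝ) (x : ℕ) (bp : Finset (ℕ × ℕ)) (h : ∀ z ∈ bp, z.1 ∈ PP x ∧ z.2 ∈ PP x ∧ ∃ i, ¬ CB (E i) (V i) (z.1 * z.2)) :
    (bp.card : ℝ) ≤ ((BR E V x).card : ℝ) * x := by
  classical
  have h1 : bp.card ≤ (BR E V x ×ˢ PP x).card := by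
    refine card_le_card_of_injOn (fun z => (z.1 * z.2, z.1)) ?_ ?_
    · intro z hz
      obtain ⟨h2, h3, h4⟩ := h z hz
      obtain ⟨h5, h6⟩ := mem_PP.1 h2
      obtain ⟨h7, h8⟩ := mem_PP.1 h3
      simp only [coe_product, Set.mem_prod, mem_coe]
      refine ⟨?_, h2⟩
      unfold BR
      rw [mem_filter, mem_Icc]
      refine ⟨⟨?_, ?_⟩, h4⟩
      · have := h6.two_le
        have := h8.two_le
        nlinarith
      · rw [sq]
        exact Nat.mul_le_mul h5 h7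
    · intro z hz w hw hzw
      obtain ⟨h2, h3, h4⟩ := h z hz
      simp only [Prod.mk.injEq] at hzw
      obtain ⟨h5, h6⟩ := hzw
      have h7 : 0 < z.1 := (mem_PP.1 h2).2.pos
      rw [← h6] at h5
      exact Prod.ext h6 (Nat.eq_of_mul_eq_mul_left h7 h5)
  rw [card_product] at h1
  have h2 : (bp.card : ℝ) ≤ ((BR E V x).card : ℝ) * ((PP x).card : ℝ) := by exact_mod_cast h1
  refine h2.trans (mul_le_mul_of_nonneg_left ?_ (by positivity))
  exact_mod_cast card_PP x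

lemma pow_le_of_log {n : ℕ} {x δ : ℝ} (hx : 1 ≤ x) (h : (n : ℝ) * Real.log 2 ≤ (1 - δ) * Real.log x) : x ^ δ ≤ (1 / 2 : ℝ) ^ n * x := by
  have hx0 : 0 < x := by linarith
  have h1 : (2 : ℝ) ^ n ≤ x ^ (1 - δ) := by
    rw [← Real.log_le_log_iff (by positivity) (Real.rpow_pos_of_pos hx0 _), Real.log_pow, Real.log_rpow hx0]
    exact h
  have h2 : x ^ δ * x ^ (1 - δ) = x := by
    rw [← Real.rpow_add hx0]
    simp
  have h3 : 0 < (2 : ℝ) ^ n := by positivity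
  rw [one_div, inv_pow, inv_mul_eq_div, le_div_iff₀ h3]
  calc x ^ δ * 2 ^ n ≤ x ^ δ * x ^ (1 - δ) := mul_le_mul_of_nonneg_left h1 (Real.rpow_nonneg hx0.le _)
    _ = x := h2

end Pool.Agent.Q145.ART
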