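import Pool.Agent.Q145.ART.Fix4

/-!
# Project ART, the second moment. Part 5: the choice of the parameters
-/

set_option autoImplicit false

namespace Pool.Agent.Q145.ART

open Finset Filter

lemma log_tendsto : Tendsto (fun x : ℕ => Real.log x) atTop atTop := Real.tendsto_log_atTop.comp tendsto_natCast_atTop_atTop

/-- powers of `log x` are smaller than powers of `x` -/
lemma ev_pow {a b c : ℝ} (hc : 0 < c) : ∀ᶠ x : ℕ in atTop, a * (Real.log x) ^ b ≤ (x : ℝ) ^ c := by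
  have h1 : (fun x : ℝ => (Real.log x) ^ b) =o[atTop] fun x : ℝ => x ^ c := isLittleO_log_rpow_rpow_atTop b hc
  have h2 := (h1.const_mul_left a).bound (c := 1) (by norm_num)
  have h3 := tendsto_natCast_atTop_atTop.eventually h2
  filter_upwards [h3] with x hx
  rw [one_mul, Real.norm_eq_abs, Real.norm_eq_abs] at hx
  refine (le_abs_self _).trans (hx.trans (le_of_eq (abs_of_nonneg (by positivity))))

lemma fin1 {s q h n y L a z lam xd2 xd4 LD : ℝ} (hL : 100 ≤ L) (ha : 1 ≤ a) (hlam : lam = 1 / (L ^ 3 * a)) (hq : xd4 * xd2 ≤ q) (h0 : 0 ≤ h) (h1 : h ≤ 1) (hs : s ≤ 3 * (xd4 * LD)) (hs0 : 0 ≤ s)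
    (hn : n / y ≤ 2 / (L ^ 9 * a)) (hz : z = 1 / (a ^ 2 * L ^ 5)) (hc : 24 * (L ^ 3 * a) * (3 * LD) ≤ xd2) (hxd4 : 0 < xd4) (hLD : 0 < LD) :
    s + (q * (n / y) + q * z + h * s) ≤ q * lam / 2 := by
  have hL0 : 0 < L := by linarith
  have ha0 : 0 < a := by linarith
  have hxd2 : 0 < xd2 := lt_of_lt_of_le (by positivity) hc
  have hq0 : 0 < q := lt_of_lt_of_le (by positivity) hq
  have hlam0 : 0 < lam := by
    rw [hlam]
    positivity
  have e1 : s + h * s ≤ q * lam / 12 := by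
    have h2 : h * s ≤ s := by nlinarith
    have h3 : 72 * LD ≤ xd2 * lam := by
      rw [hlam, mul_one_div, le_div_iff₀ (by positivity)]
      linarith
    have h4 : xd4 * (72 * LD) ≤ q * lam := by
      calc xd4 * (72 * LD) ≤ xd4 * (xd2 * lam) := mul_le_mul_of_nonneg_left h3 hxd4.le
        _ = xd4 * xd2 * lam := by ring
        _ ≤ q * lam := mul_le_mul_of_nonneg_right hq hlam0.le
    linarith
  have e2 : q * (n / y) ≤ q * lam / 6 := by
    have h2 : 2 / (L ^ 9 * a) ≤ lam / 6 := by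
      rw [hlam, div_div, div_le_div_iff₀ (by positivity) (by positivity)]
      have h3 : L ^ 9 = L ^ 3 * L ^ 6 := by ring
      have h4 : (100 : ℝ) ^ 6 ≤ L ^ 6 := pow_le_pow_left₀ (by norm_num) hL 6
      have h5 : 0 < L ^ 3 * a := by positivity
      rw [h3]
      nlinarith
    calc q * (n / y) ≤ q * (lam / 6) := mul_le_mul_of_nonneg_left (hn.trans h2) hq0.le
      _ = _ := by ring
  have e3 : q * z ≤ q * lam / 6 := by
    have h2 : z ≤ lam / 6 := by
      rw [hz, hlam, div_div, div_le_div_iff₀ (by positivity) (by positivity)]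
      have h4 : (100 : ℝ) ^ 2 ≤ L ^ 2 := pow_le_pow_left₀ (by norm_num) hL 2
      have h5 : 0 < L ^ 3 * a := by positivity
      have h6 : a ^ 2 * L ^ 5 = (L ^ 3 * a) * (L ^ 2 * a) := by ring
      have h7 : 10000 ≤ L ^ 2 * a := by nlinarith
      rw [h6]
      nlinarith
    calc q * z ≤ q * (lam / 6) := mul_le_mul_of_nonneg_left h2 hq0.le
      _ = _ := by ring
  have e4 : 0 < q * lam := by positivity
  linarith

lemma fin2 {q nη bc z L a lam xd2 xd4 xd : ℝ} (hL : 100 ≤ L) (ha : 1 ≤ a) (hlam : lam = 1 / (L ^ 3 * a)) (hxd : xd4 * xd2 ≤ xd) (hq : xd ≤ q)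
    (hn : nη ≤ 24 * (1 / (L ^ 9 * a ^ 3))) (hb : bc ≤ 2 * L * xd4) (hz : z = 1 / (a ^ 2 * L ^ 5)) (hc : 96 * (3 * L) * (L ^ 6 * a ^ 3) ≤ xd2) (hxd4 : 1 ≤ xd4) (hxd2 : 0 < xd2) :
    48 * (2 * nη) / lam ^ 2 + 32 * (1 + bc) / (q * lam ^ 2) + 8 * z / lam ≤ 1 / a := by
  have hL0 : 0 < L := by linarith
  have ha0 : 0 < a := by linarith
  have hq0 : 0 < q := lt_of_lt_of_le (by positivity) (hxd.trans hq)
  have hlam2 : lam ^ 2 = 1 / (L ^ 6 * a ^ 2) := by
    rw [hlam, div_pow]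
    ring
  have e1 : 48 * (2 * nη) / lam ^ 2 ≤ 1 / (3 * a) := by
    rw [hlam2, div_div_eq_mul_div, div_one]
    calc 48 * (2 * nη) * (L ^ 6 * a ^ 2) ≤ 48 * (2 * (24 * (1 / (L ^ 9 * a ^ 3)))) * (L ^ 6 * a ^ 2) := by
          refine mul_le_mul_of_nonneg_right ?_ (by positivity)
          linarith
      _ = 2304 / (L ^ 3 * a) := by
        field_simp
        ring
      _ ≤ 1 / (3 * a) := by
        rw [div_le_div_iff₀ (by positivity) (by positivity)]
        have h4 : (100 : ℝ) ^ 3 ≤ L ^ 3 := pow_le_pow_left₀ (by norm_num) hL 3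
        nlinarith
  have e2 : 32 * (1 + bc) / (q * lam ^ 2) ≤ 1 / (3 * a) := by
    rw [hlam2]
    have h1 : 1 + bc ≤ 3 * L * xd4 := by nlinarith
    have h2 : xd4 * (96 * (3 * L) * (L ^ 6 * a ^ 3)) ≤ q := (mul_le_mul_of_nonneg_left hc (by linarith)).trans (hxd.trans hq)
    rw [div_le_div_iff₀ (by positivity) (by positivity)]
    have h3 : 32 * (1 + bc) * (3 * a) ≤ 32 * (3 * L * xd4) * (3 * a) := by
      refine mul_le_mul_of_nonneg_right ?_ (by positivity)
      linarith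
    refine h3.trans ?_
    rw [one_mul, mul_one_div, le_div_iff₀ (by positivity)]
    refine le_trans (le_of_eq ?_) h2
    ring
  have e3 : 8 * z / lam ≤ 1 / (3 * a) := by
    rw [hz, hlam, div_div_eq_mul_div, div_one]
    calc 8 * (1 / (a ^ 2 * L ^ 5)) * (L ^ 3 * a) = 8 / (L ^ 2 * a) := by
          field_simp
      _ ≤ 1 / (3 * a) := by
        rw [div_le_div_iff₀ (by positivity) (by positivity)]
        have h4 : (100 : ℝ) ^ 2 ≤ L ^ 2 := pow_le_pow_left₀ (by norm_num) hL 2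
        nlinarith
  have e4 : 1 / (3 * a) + 1 / (3 * a) + 1 / (3 * a) = 1 / a := by
    field_simp
    norm_num
  linarith

/-- all conditions on `x` alone -/
structure Big (A δ κ B₀ D : ℝ) (x : ℕ) : Prop where
  hx : 1 ≤ x
  L1 : 100 ≤ Real.log x
  LL : 1 ≤ Real.log (Real.log x)
  LL2 : Real.log (Real.log x) ≤ Real.log x
  c1 : D * Real.log (Real.log x) ≤ κ * Real.log x
  c2 : 24 * (Real.log x) ^ (3 + A) * (3 * (Real.log x) ^ D) ≤ (x : ℝ) ^ (δ / 2)
  c3 : 96 * (3 * Real.log x) * (Real.log x) ^ (6 + 3 * A) ≤ (x : ℝ) ^ (δ / 2)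

lemma ev_big {A δ κ B₀ D : ℝ} (hδ : 0 < δ) (hκ : 0 < κ) : ∀ᶠ x : ℕ in atTop, Big A δ κ B₀ D x := by
  have h1 := ev_pow (a := 72) (b := 3 + A + D) (c := δ / 2) (by positivity)
  have h2 := ev_pow (a := 288) (b := 1 + (6 + 3 * A)) (c := δ / 2) (by positivity)
  have h3 : ∀ᶠ L : ℝ in atTop, D * Real.log L ≤ κ * L := by
    have h4 := (Real.isLittleO_log_id_atTop.const_mul_left D).bound (c := κ) hκ
    filter_upwards [h4, eventually_ge_atTop 0] with L hL hL0
    rw [id, Real.norm_eq_abs, Real.norm_eq_abs, abs_of_nonneg hL0] at hL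
    exact (le_abs_self _).trans hL
  have h4 : ∀ᶠ L : ℝ in atTop, Real.log L ≤ L := by
    filter_upwards [eventually_ge_atTop 1] with L hL
    have := Real.log_le_sub_one_of_pos (by linarith : 0 < L)
    linarith
  filter_upwards [h1, h2, log_tendsto.eventually h3, log_tendsto.eventually h4, log_tendsto.eventually_ge_atTop 100, eventually_ge_atTop 1,
    (Real.tendsto_log_atTop.comp log_tendsto).eventually_ge_atTop 1] with x h1 h2 h3 h4 h5 h6 h7
  have hL0 : 0 < Real.log x := by linarith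
  refine ⟨h6, h5, h7, h4, h3, ?_, ?_⟩
  · calc 24 * (Real.log x) ^ (3 + A) * (3 * (Real.log x) ^ D) = 72 * ((Real.log x) ^ (3 + A) * (Real.log x) ^ D) := by ring
      _ = 72 * (Real.log x) ^ (3 + A + D) := by rw [← Real.rpow_add hL0]
      _ ≤ _ := h1
  · calc 96 * (3 * Real.log x) * (Real.log x) ^ (6 + 3 * A) = 288 * ((Real.log x) ^ (1 : ℝ) * (Real.log x) ^ (6 + 3 * A)) := by
          rw [Real.rpow_one]
          ring
      _ = 288 * (Real.log x) ^ (1 + (6 + 3 * A)) := by rw [← Real.rpow_add hL0]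
      _ ≤ _ := h2

theorem t_FIX (h1S : S_EXP) (hONE : S_ONE) (hTWO : S_TWO) (hUPP : S_UPP) (hBCH : S_BCH) (hTAU : S_TAU) (hSV : S_SV) (hLOW : S_LOW) : S_FIX := by
  classical
  intro A δ hA hδ hδ1
  obtain ⟨C₁, κ, hκ, hκδ, hbch⟩ := hBCH (δ / 4) (by positivity)
  obtain ⟨B₀, C₂, hB₀, htau⟩ := hTAU (2 * A + 5) (by positivity)
  obtain ⟨C₃, hlow⟩ := hLOW hSV
  set D : ℝ := 4 * B₀ + 3 * A + 10 with hD
  have hD0 : 0 < D := by positivity
  obtain ⟨x₀, hx₀⟩ := eventually_atTop.1 (ev_big (A := A) (δ := δ) (κ := κ) (B₀ := B₀) (D := D) hδ hκ)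
  refine ⟨max (max C₁ C₂) (max C₃ (max x₀ (D / κ))), κ, hκ, by linarith, ?_⟩
  intro x N n E t hCx hCN hn hE hEc ht
  have hxx : x₀ ≤ x := by
    have := ((le_max_left (x₀ : ℝ) (D / κ)).trans ((le_max_right C₃ _).trans (le_max_right _ _))).trans hCx
    exact_mod_cast this
  have hxC1 : C₁ ≤ x := ((le_max_left C₁ C₂).trans (le_max_left _ _)).trans hCx
  have hxC2 : C₂ ≤ x := ((le_max_right C₁ C₂).trans (le_max_left _ _)).trans hCx
  have hxC3 : C₃ ≤ x := ((le_max_left C₃ _).trans (le_max_right _ _)).trans hCx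
  obtain ⟨hx1, L1, LL1, LL2, c1, c2, c3⟩ := hx₀ x hxx
  set L : ℝ := Real.log x with hL
  have hL0 : 0 < L := by linarith
  have hx0 : (0 : ℝ) < x := by exact_mod_cast hx1
  have hx1' : (1 : ℝ) ≤ x := by exact_mod_cast hx1
  have hs0 : 0 ≤ Real.sqrt (L * Real.log L) := Real.sqrt_nonneg _
  have hsl : Real.log L ≤ Real.sqrt (L * Real.log L) := by
    rw [Real.le_sqrt' (by linarith)]
    nlinarith
  have hNC1 : C₁ * Real.sqrt (L * Real.log L) ≤ Real.log N :=
    (mul_le_mul_of_nonneg_right ((le_max_left C₁ C₂).trans (le_max_left _ _)) hs0).trans hCN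
  have hND : D * Real.log L ≤ κ * Real.log N := by
    have h1 : D / κ * Real.sqrt (L * Real.log L) ≤ Real.log N :=
      (mul_le_mul_of_nonneg_right ((le_max_right (x₀ : ℝ) (D / κ)).trans ((le_max_right C₃ _).trans (le_max_right _ _))) hs0).trans hCN
    have h2 : D * Real.log L ≤ κ * (D / κ * Real.sqrt (L * Real.log L)) := by
      rw [← mul_assoc, mul_div_cancel₀ _ hκ.ne']
      exact mul_le_mul_of_nonneg_left hsl hD0.le
    exact h2.trans (mul_le_mul_of_nonneg_left h1 hκ.le)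
  have hlogN : 0 < Real.log N := by
    by_contra h
    push Not at h
    have : κ * Real.log N ≤ 0 := mul_nonpos_of_nonneg_of_nonpos hκ.le h
    have h2 : 0 < D * Real.log L := by positivity
    linarith
  have hN1 : 1 ≤ N := by
    by_contra h
    have : N = 0 := by omega
    rw [this] at hlogN
    simp at hlogN
  set m : ℕ := min N x with hm
  have hm1 : 1 ≤ m := le_min hN1 hx1
  have hm0 : (0 : ℝ) < m := by exact_mod_cast hm1
  have hmx : (m : ℝ) ≤ x := by exact_mod_cast min_le_right N x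
  have hmL : L ^ D ≤ (m : ℝ) ^ κ := by
    rw [← Real.log_le_log_iff (Real.rpow_pos_of_pos hL0 _) (Real.rpow_pos_of_pos hm0 _), Real.log_rpow hL0, Real.log_rpow hm0]
    rcases min_choice N x with h | h
    · rw [hm, h]
      exact hND
    · rw [hm, h]
      exact c1
  have hLD0 : 0 < L ^ D := Real.rpow_pos_of_pos hL0 _
  have hmk0 : 0 < (m : ℝ) ^ κ := Real.rpow_pos_of_pos hm0 _
  -- sizes
  have hE0 : ∀ i, 0 < ((E i).card : ℝ) := by
    intro i
    have h1 := hEc i
    have h2 : (0 : ℝ) < N := by exact_mod_cast hN1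
    by_contra h
    push Not at h
    have : ((E i).card : ℝ) * (m : ℝ) ^ κ ≤ 0 := mul_nonpos_of_nonpos_of_nonneg h hmk0.le
    linarith
  set V : Fin n → ℝ := fun i => ((E i).card : ℝ) * (m : ℝ) ^ (-κ) with hV
  have hn2 : (n : ℝ) ≤ 2 * L := by
    have h1 := Real.log_two_gt_d9
    have h2 : (1 - δ) * L ≤ L := by nlinarith
    have h3 : (n : ℝ) * 0.5 ≤ (n : ℝ) * Real.log 2 := mul_le_mul_of_nonneg_left (by linarith) (Nat.cast_nonneg _)
    linarith
  set q : ℝ := (1 / 2 : ℝ) ^ n * x with hq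
  have hqx : (x : ℝ) ^ δ ≤ q := pow_le_of_log hx1' hn
  set T : ℝ := L ^ B₀ with hT
  set d : ℝ := L ^ (-D) with hd
  set y : ℝ := (m : ℝ) ^ κ * L ^ D with hy
  set lam : ℝ := L ^ (-(3 + A)) with hlam
  set bc : ℝ := n * (x : ℝ) ^ (δ / 4) with hbc
  have hlam0 : 0 < lam := Real.rpow_pos_of_pos hL0 _
  have hL1' : (1 : ℝ) ≤ L := by linarith
  have hBRc : ((BR E V x).card : ℝ) ≤ bc := card_BR E V x fun i => hbch x N (E i) hxC1 hNC1 (hE i) (hEc i)
  -- the sets
  set bad : ℕ → Prop := fun p => ∃ i, ¬ CB (E i) (V i) p with hbad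
  set G : Finset ℕ := (PP x).filter (fun p => (y < p ∧ ¬ bad p) ∧ tt p ≤ T) with hG
  set H : Finset ℕ := (PP x).filter (fun p => (y < p ∧ ¬ bad p) ∧ ¬ tt p ≤ T) with hH
  set S : Finset ℕ := (PP x).filter (fun p => ¬ (y < p ∧ ¬ bad p)) with hS
  set bp : Finset (ℕ × ℕ) := (PP x ×ˢ PP x).filter (fun z => bad (z.1 * z.2)) with hbp
  have hT4 : 12 * T ^ 4 * d = 12 * L ^ (-(3 * A + 10)) := by
    rw [hT, hd, ← Real.rpow_natCast, ← Real.rpow_mul hL0.le, mul_assoc, ← Real.rpow_add hL0]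
    congr 2
    rw [hD]
    push_cast
    ring
  have hnη : (n : ℝ) * (12 * T ^ 4 * d) ≤ 24 * L ^ (-(3 * A + 9)) := by
    rw [hT4]
    calc (n : ℝ) * (12 * L ^ (-(3 * A + 10))) ≤ 2 * L * (12 * L ^ (-(3 * A + 10))) := mul_le_mul_of_nonneg_right hn2 (by positivity)
      _ = 24 * (L ^ (1 : ℝ) * L ^ (-(3 * A + 10))) := by
        rw [Real.rpow_one]
        ring
      _ = _ := by
        rw [← Real.rpow_add hL0]
        congr 2
        ring
  have hLn9 : L ^ (-(3 * A + 9)) ≤ 1 / 100 := by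
    calc L ^ (-(3 * A + 9)) ≤ L ^ (-1 : ℝ) := Real.rpow_le_rpow_of_exponent_le hL1' (by linarith)
      _ = 1 / L := by rw [Real.rpow_neg_one, one_div]
      _ ≤ 1 / 100 := one_div_le_one_div_of_le (by norm_num) L1
  have hy2 : 2 ≤ y := by
    have h1 : 1 ≤ L ^ D := Real.one_le_rpow hL1' hD0.le
    have h2 : L ≤ L ^ D := by
      calc L = L ^ (1 : ℝ) := (Real.rpow_one L).symm
        _ ≤ L ^ D := Real.rpow_le_rpow_of_exponent_le hL1' (by rw [hD]; linarith)
    have h3 : 1 ≤ (m : ℝ) ^ κ := h1.trans hmL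
    rw [hy]
    nlinarith
  have hyle : y ≤ (x : ℝ) ^ (δ / 4) * L ^ D := by
    rw [hy]
    refine mul_le_mul_of_nonneg_right ?_ hLD0.le
    calc (m : ℝ) ^ κ ≤ (x : ℝ) ^ κ := Real.rpow_le_rpow hm0.le hmx hκ.le
      _ ≤ (x : ℝ) ^ (δ / 4) := Real.rpow_le_rpow_of_exponent_le hx1' hκδ
  have hinv : L ^ D * d = 1 := by
    rw [hd, ← Real.rpow_add hL0]
    simp
  -- powers of `L`
  set a : ℝ := L ^ A with ha
  have ha1 : 1 ≤ a := Real.one_le_rpow hL1' hA.le
  have ha0 : 0 < a := by linarith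
  have hlama : lam = 1 / (L ^ 3 * a) := by
    rw [hlam, Real.rpow_neg hL0.le, Real.rpow_add hL0, one_div]
    norm_cast
  have hz : 1 / L ^ (2 * A + 5) = 1 / (a ^ 2 * L ^ 5) := by
    rw [Real.rpow_add hL0, ha, ← Real.rpow_natCast (L ^ A) 2, ← Real.rpow_mul hL0.le]
    norm_num
    left
    ring_nf
  have h9 : L ^ (-(3 * A + 9)) = 1 / (L ^ 9 * a ^ 3) := by
    rw [Real.rpow_neg hL0.le, Real.rpow_add hL0, ha, ← Real.rpow_natCast (L ^ A) 3, ← Real.rpow_mul hL0.le, one_div]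
    norm_num
    ring_nf
  have hc2 : 24 * (L ^ 3 * a) * (3 * L ^ D) ≤ (x : ℝ) ^ (δ / 2) := by
    have : L ^ (3 + A) = L ^ 3 * a := by
      rw [Real.rpow_add hL0]
      norm_cast
    rw [← this]
    exact c2
  have hc3 : 96 * (3 * L) * (L ^ 6 * a ^ 3) ≤ (x : ℝ) ^ (δ / 2) := by
    have : L ^ (6 + 3 * A) = L ^ 6 * a ^ 3 := by
      rw [Real.rpow_add hL0, ha, ← Real.rpow_natCast (L ^ A) 3, ← Real.rpow_mul hL0.le]
      norm_num
      left
      ring_nf
    rw [← this]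
    exact c3
  have hxd4 : 1 ≤ (x : ℝ) ^ (δ / 4) := Real.one_le_rpow hx1' (by positivity)
  have hxd : (x : ℝ) ^ (δ / 4) * (x : ℝ) ^ (δ / 2) ≤ (x : ℝ) ^ δ := by
    rw [← Real.rpow_add hx0]
    exact Real.rpow_le_rpow_of_exponent_le hx1' (by linarith)
  have hbcle : bc ≤ 2 * L * (x : ℝ) ^ (δ / 4) := mul_le_mul_of_nonneg_right hn2 (by positivity)
  have hLLD : L ≤ L ^ D := by
    calc L = L ^ (1 : ℝ) := (Real.rpow_one L).symm
      _ ≤ L ^ D := Real.rpow_le_rpow_of_exponent_le hL1' (by rw [hD]; linarith)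
  have hybc : y + bc ≤ 3 * ((x : ℝ) ^ (δ / 4) * L ^ D) := by
    have : 2 * L * (x : ℝ) ^ (δ / 4) ≤ 2 * ((x : ℝ) ^ (δ / 4) * L ^ D) := by
      have h1 : 0 ≤ (x : ℝ) ^ (δ / 4) := by positivity
      nlinarith
    linarith
  have hbc0 : 0 ≤ bc := by positivity
  have hhn0 : (0 : ℝ) < (1 / 2 : ℝ) ^ n := by positivity
  have hhn1 : (1 / 2 : ℝ) ^ n ≤ 1 := pow_le_one₀ (by norm_num) (by norm_num)
  have hny : (n : ℝ) / y ≤ 2 / (L ^ 9 * a) := by
    have h1 : L ^ 10 * a ≤ y := by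
      have h2 : L ^ 10 * a ≤ L ^ D := by
        calc L ^ 10 * a = L ^ (10 + A) := by
              rw [Real.rpow_add hL0]
              norm_cast
          _ ≤ L ^ D := Real.rpow_le_rpow_of_exponent_le hL1' (by rw [hD]; linarith)
      have h3 : 1 ≤ (m : ℝ) ^ κ := (Real.one_le_rpow hL1' hD0.le).trans hmL
      rw [hy]
      nlinarith
    calc (n : ℝ) / y ≤ 2 * L / (L ^ 10 * a) := div_le_div₀ (by positivity) hn2 (by positivity) h1
      _ = 2 / (L ^ 9 * a) := by
        field_simp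
  have key := core h1S hONE hTWO hUPP x N E t V T d y (y + bc) ((x : ℝ) / L ^ (2 * A + 5)) (bc * x) lam G H S bp hx1 ht hE hE0
    (fun i => by positivity) (Real.one_le_rpow hL1' hB₀.le) (Real.rpow_nonneg hL0.le _) hy2
    (by linarith) (by
      rw [hT4]
      have : L ^ (-(3 * A + 10)) ≤ L ^ (-(3 * A + 9)) := Real.rpow_le_rpow_of_exponent_le hL1' (by linarith)
      linarith) hlam0 (by positivity) (by positivity) (by positivity)
    (fun i => by
      rw [hV]
      simp only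
      rw [mul_comm]
      refine mul_le_mul_of_nonneg_right ?_ (hE0 i).le
      rw [hd, Real.rpow_neg hm0.le, Real.rpow_neg hL0.le]
      exact inv_anti₀ hLD0 hmL)
    (fun i p hp => by
      have hy0 : 0 < y := by linarith
      calc (N : ℝ) / p ≤ (N : ℝ) / y := div_le_div_of_nonneg_left (Nat.cast_nonneg _) hy0 hp.le
        _ ≤ ((E i).card : ℝ) * (m : ℝ) ^ κ / y := by
          exact div_le_div_of_nonneg_right (hEc i) hy0.le
        _ = d * (E i).card := by
          rw [div_eq_iff hy0.ne', hy]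
          calc ((E i).card : ℝ) * (m : ℝ) ^ κ = (L ^ D * d) * (((E i).card : ℝ) * (m : ℝ) ^ κ) := by rw [hinv, one_mul]
            _ = _ := by ring)
    (by
      ext p
      simp only [hG, hH, hS, mem_union, mem_filter]
      tauto)
    (by
      rw [disjoint_left]
      intro p h1 h2
      exact (mem_filter.1 h2).2.2 (mem_filter.1 h1).2.2)
    (by
      rw [disjoint_left]
      intro p h1 h2
      rcases mem_union.1 h1 with h3 | h3
      · exact (mem_filter.1 h2).2 (mem_filter.1 h3).2.1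
      · exact (mem_filter.1 h2).2 (mem_filter.1 h3).2.1)
    (fun p hp => by
      obtain ⟨h1, ⟨h2, h3⟩, h4⟩ := mem_filter.1 hp
      exact ⟨h2, h4, fun i => by
        by_contra h5
        exact h3 ⟨i, h5⟩⟩)
    (fun p hp => by
      obtain ⟨h1, ⟨h2, h3⟩, h4⟩ := mem_filter.1 hp
      refine ⟨by exact_mod_cast lt_of_le_of_lt hy2 h2, fun i => ?_⟩
      by_contra h5
      exact h3 ⟨i, h5⟩)
    (fun p hp q' hq' hpq hb i => by
      by_contra h5
      apply hb
      rw [hbp, mem_filter, mem_product]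
      exact ⟨⟨(mem_filter.1 hp).1, (mem_filter.1 hq').1⟩, i, h5⟩)
    (by
      refine le_trans ?_ (htau x hxC2)
      unfold num
      have : H ⊆ (PP x).filter (fun p => L ^ B₀ < tt p) := by
        intro p hp
        obtain ⟨h1, h2, h3⟩ := mem_filter.1 hp
        exact mem_filter.2 ⟨h1, not_le.1 h3⟩
      exact_mod_cast card_le_card this)
    (by
      refine (card_S E V x (y := y) (by linarith) S (filter_subset _ _) fun p hp => ?_).trans (by linarith)
      have h1 := (mem_filter.1 hp).2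
      by_cases h2 : y < p
      · right
        by_contra h3
        exact h1 ⟨h2, h3⟩
      · left
        exact not_lt.1 h2)
    (by
      refine (card_bp E V x bp fun z hz => ?_).trans (mul_le_mul_of_nonneg_right hBRc hx0.le)
      obtain ⟨h1, h2⟩ := mem_filter.1 hz
      obtain ⟨h3, h4⟩ := mem_product.1 h1
      exact ⟨h3, h4, h2⟩)
    (by
      have h1 := fin1 (s := y + bc) (q := q) (h := (1 / 2 : ℝ) ^ n) (n := (n : ℝ)) (y := y) (LD := L ^ D) L1 ha1 hlama (hxd.trans hqx) hhn0.le hhn1 hybc (by linarith) hny rfl hc2 (by positivity) hLD0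
      rw [← hz] at h1
      refine le_trans (le_of_eq ?_) h1
      rw [hq]
      ring)
  have hmain : q * lam ≤ main t x / a := by
    have h1 : (1 / 2 : ℝ) ^ n * ((x : ℝ) / L ^ 3) ≤ main t x := by
      refine main_ge t x fun K hK => ?_
      refine hlow x K hxC3 ?_
      have : (K : ℝ) ≤ n := by exact_mod_cast hK
      linarith
    rw [le_div_iff₀ ha0]
    refine le_trans (le_of_eq ?_) h1
    rw [hq, hlama]
    field_simp
  have hW0 : 0 ≤ ∏ i, ((E i).card : ℝ) := prod_nonneg fun i _ => (hE0 i).le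
  refine (num_mono _ fun b _ hb => lt_of_le_of_lt hmain hb).trans (key.trans ?_)
  have h2 := fin2 (q := q) (nη := n * (12 * T ^ 4 * d)) (bc := bc) L1 ha1 hlama hxd hqx (by rw [← h9]; exact hnη) hbcle rfl hc3 hxd4 (by positivity)
  rw [← hz] at h2
  have h3 : bc * x / x = bc := by field_simp
  have h4 : (x : ℝ) / L ^ (2 * A + 5) / x = 1 / L ^ (2 * A + 5) := by
    field_simp
  rw [h3, h4]
  calc _ ≤ (∏ i, ((E i).card : ℝ)) * (1 / a) := mul_le_mul_of_nonneg_left h2 hW0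
    _ = _ := by ring

end Pool.Agent.Q145.ART
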